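import Pool.Agent.Run7.h794.MK.Stm3
import Pool.Agent.N384.MQ.Dec
import Pool.Agent.Cov.PNT

/-!
# Project MK: every shift (piece EV, from `S_T31`)
-/

set_option autoImplicit false

namespace Pool.Agent.Run7.h931.MK

open Finset Filter
open Pool.Agent.H373R2.T7 (lamI lamI_nonneg)
open Pool.Agent.Run7.h794.MK
open Pool.Agent.N384.MQ (Sm Flat dis sm_dis dis_nonneg dis_sum_real ev_log_pow ev_log_ge)

/-- the prime powers in a shifted interval -/
lemma pp_inner (N : ℕ) (c : ℤ) (X : ℝ) (hX : 1 ≤ X) (h : ∀ n ∈ Icc 1 N, (((n : ℤ) + c : ℤ) : ℝ) ≤ X) :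
    ∑ n ∈ Icc 1 N, (if ((n : ℤ) + c).toNat.Prime then 0 else lamI ((n : ℤ) + c)) ≤ 2 * √X * Real.log X := by
  classical
  refine le_trans ?_ (Chebyshev.psi_sub_theta_le hX)
  rw [Chebyshev.psi_sub_theta_eq_sum_not_prime]
  obtain ⟨S, hS⟩ : ∃ S : Finset ℕ, S = (Icc 1 N).filter (fun n : ℕ => 1 ≤ (n : ℤ) + c ∧ ¬ ((n : ℤ) + c).toNat.Prime) := ⟨_, rfl⟩
  have h1 : ∑ n ∈ Icc 1 N, (if ((n : ℤ) + c).toNat.Prime then 0 else lamI ((n : ℤ) + c)) =
      ∑ n ∈ S, ArithmeticFunction.vonMangoldt ((n : ℤ) + c).toNat := by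
    rw [hS, sum_filter]
    refine sum_congr rfl fun n _ => ?_
    unfold lamI
    by_cases h1 : ((n : ℤ) + c).toNat.Prime
    · simp [h1]
    · by_cases h2 : 1 ≤ (n : ℤ) + c
      · simp [h1, h2]
      · simp [h1, h2]
  have hinj : Set.InjOn (fun n : ℕ => ((n : ℤ) + c).toNat) S := by
    intro a ha b hb hab
    rw [mem_coe, hS, mem_filter] at ha hb
    have := ha.2.1
    have := hb.2.1
    simp only at hab
    omega
  rw [h1, ← sum_image (f := fun m : ℕ => ArithmeticFunction.vonMangoldt m) hinj]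
  apply sum_le_sum_of_subset_of_nonneg
  · intro m hm
    rw [mem_image] at hm
    obtain ⟨n, hn, rfl⟩ := hm
    rw [hS, mem_filter] at hn
    rw [mem_filter, mem_Ioc]
    refine ⟨⟨by have := hn.2.1; omega, Nat.le_floor ?_⟩, hn.2.2⟩
    have h2 : ((((n : ℤ) + c).toNat : ℕ) : ℝ) = (((n : ℤ) + c : ℤ) : ℝ) := by
      have := Int.toNat_of_nonneg (show 0 ≤ (n : ℤ) + c by have := hn.2.1; omega)
      exact_mod_cast this
    rw [h2]
    exact h n hn.1
  · intro m _ _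
    exact ArithmeticFunction.vonMangoldt_nonneg

lemma card_markov {ι : Type} (A : Finset ι) (f : ι → ℝ) (hf : ∀ i ∈ A, 0 ≤ f i) (δ S : ℝ) (hδ : 0 < δ)
    (h : ∑ i ∈ A, f i ≤ S) : ((A.filter fun i => δ < f i).card : ℝ) ≤ S / δ := by
  rw [le_div_iff₀ hδ]
  refine le_trans ?_ h
  calc ((A.filter fun i => δ < f i).card : ℝ) * δ = ∑ i ∈ A.filter (fun i => δ < f i), δ := by
        rw [sum_const, nsmul_eq_mul]
    _ ≤ ∑ i ∈ A.filter (fun i => δ < f i), f i := sum_le_sum fun i hi => (mem_filter.1 hi).2.le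
    _ ≤ ∑ i ∈ A, f i := sum_le_sum_of_subset_of_nonneg (filter_subset _ _) fun i hi _ => hf i hi

/-- the integers in an interval starting at zero -/
lemma card_small (N : ℕ) (c : ℤ) (R : ℝ) (hR : 0 ≤ R) :
    (((Icc 1 N).filter fun n : ℕ => 0 < (n : ℤ) + c ∧ (((n : ℤ) + c : ℤ) : ℝ) < R).card : ℝ) ≤ R := by
  classical
  have h1 : ((Icc 1 N).filter fun n : ℕ => 0 < (n : ℤ) + c ∧ (((n : ℤ) + c : ℤ) : ℝ) < R).card ≤
      (Icc 1 ⌊R⌋₊).card := by
    apply card_le_card_of_injOn (fun n : ℕ => ((n : ℤ) + c).toNat)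
    · intro n hn
      rw [mem_coe, mem_filter] at hn
      rw [mem_coe, mem_Icc]
      have hn0 := hn.2.1
      refine ⟨show 1 ≤ ((n : ℤ) + c).toNat by omega, Nat.le_floor ?_⟩
      have h2 : ((((n : ℤ) + c).toNat : ℕ) : ℝ) = (((n : ℤ) + c : ℤ) : ℝ) := by
        have := Int.toNat_of_nonneg (show 0 ≤ (n : ℤ) + c by have := hn.2.1; omega)
        exact_mod_cast this
      rw [h2]
      exact hn.2.2.le
    · intro a ha b hb hab
      rw [mem_coe, mem_filter] at ha hb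
      have := ha.2.1
      have := hb.2.1
      simp only at hab
      omega
  rw [Nat.card_Icc, Nat.add_sub_cancel] at h1
  exact le_trans (by exact_mod_cast h1) (Nat.floor_le hR)

/-- the proportion of primes among `n + cc + κ v` -/
noncomputable def cnt (q : ℕ) (p : ℕ → ℝ) (κ cc : ℤ) (n : ℕ) : ℝ :=
  ∑ v ∈ range q, p v * (if ((n : ℤ) + (cc + κ * (v : ℕ))).toNat.Prime then 1 else 0)

/-- the deterministic part -/
lemma det (q : ℕ) (p : ℕ → ℝ) (hp : ∀ v, 0 ≤ p v) (κ cc : ℤ) (n : ℕ) (R X : ℝ) (hR : 1 < R)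
    (h : ∀ v ∈ range q, R ≤ (((n : ℤ) + (cc + κ * (v : ℕ)) : ℤ) : ℝ) ∧ (((n : ℤ) + (cc + κ * (v : ℕ)) : ℤ) : ℝ) ≤ X) :
    Real.log R * cnt q p κ cc n ≤ ∑ v ∈ range q, p v * lamI ((n : ℤ) + (cc + κ * (v : ℕ))) ∧
    ∑ v ∈ range q, p v * lamI ((n : ℤ) + (cc + κ * (v : ℕ))) ≤ Real.log X * cnt q p κ cc n +
      ∑ v ∈ range q, p v * (if ((n : ℤ) + (cc + κ * (v : ℕ))).toNat.Prime then 0 else lamI ((n : ℤ) + (cc + κ * (v : ℕ)))) := by
  have key : ∀ v ∈ range q, ∀ m : ℤ, m = (n : ℤ) + (cc + κ * (v : ℕ)) → m.toNat.Prime →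
      Real.log R ≤ lamI m ∧ lamI m ≤ Real.log X := by
    intro v hv m hm hpr
    have h1 := h v hv
    rw [← hm] at h1
    have h0 : 1 ≤ m := by
      have : (1 : ℝ) < (m : ℝ) := lt_of_lt_of_le hR h1.1
      exact_mod_cast this.le
    have h2 : ((m.toNat : ℕ) : ℝ) = m := by
      have := Int.toNat_of_nonneg (show 0 ≤ m by omega)
      exact_mod_cast this
    have h3 : lamI m = Real.log m := by
      unfold lamI
      rw [if_pos h0, ArithmeticFunction.vonMangoldt_apply_prime hpr, h2]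
    rw [h3]
    exact ⟨Real.log_le_log (by linarith) h1.1, Real.log_le_log (by linarith) h1.2⟩
  constructor
  · unfold cnt
    rw [mul_sum]
    apply sum_le_sum
    intro v hv
    by_cases h1 : ((n : ℤ) + (cc + κ * (v : ℕ))).toNat.Prime
    · rw [if_pos h1, mul_one, mul_comm]
      exact mul_le_mul_of_nonneg_left (key v hv _ rfl h1).1 (hp v)
    · rw [if_neg h1, mul_zero, mul_zero]
      exact mul_nonneg (hp v) (lamI_nonneg _)
  · unfold cnt
    rw [mul_sum, ← sum_add_distrib]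
    apply sum_le_sum
    intro v hv
    by_cases h1 : ((n : ℤ) + (cc + κ * (v : ℕ))).toNat.Prime
    · rw [if_pos h1, if_pos h1, mul_one, mul_zero, add_zero, mul_comm (Real.log X)]
      exact mul_le_mul_of_nonneg_left (key v hv _ rfl h1).2 (hp v)
    · rw [if_neg h1, if_neg h1, mul_zero, mul_zero, zero_add]

lemma ev_sub (T : ℕ) (A δ : ℝ) (hδ : 0 < δ) : ∀ᶠ N : ℕ in atTop, A + T * Real.log (Real.log N) ≤ δ * Real.log N := by
  have h0 : Tendsto (fun N : ℕ => Real.log N) atTop atTop :=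
    Real.tendsto_log_atTop.comp (tendsto_natCast_atTop_atTop (R := ℝ))
  have h1 : ∀ᶠ x : ℝ in atTop, A + T * Real.log x ≤ δ * x := by
    have h2 := Real.isLittleO_log_id_atTop.bound (show (0 : ℝ) < δ / (2 * (T + 1)) by positivity)
    filter_upwards [h2, eventually_ge_atTop (2 * |A| / δ), eventually_ge_atTop 1] with x hx hx2 hx1
    have hl : 0 ≤ Real.log x := Real.log_nonneg hx1
    rw [Real.norm_of_nonneg hl, id, Real.norm_of_nonneg (by linarith)] at hx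
    have h3 : (T : ℝ) * Real.log x ≤ δ / 2 * x := by
      calc (T : ℝ) * Real.log x ≤ (T + 1) * Real.log x := by nlinarith
        _ ≤ (T + 1) * (δ / (2 * (T + 1)) * x) := mul_le_mul_of_nonneg_left hx (by positivity)
        _ = δ / 2 * x := by field_simp
    rw [div_le_iff₀ hδ] at hx2
    have := le_abs_self A
    nlinarith
  exact h0.eventually h1

lemma ev_all (T U : ℕ) (δ : ℝ) (hδ : 0 < δ) : ∀ᶠ N : ℕ in atTop, 4 / δ ^ 2 ≤ Real.log N ∧ 4 ≤ Real.log N ∧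
    Real.log (3 * (N * Real.log N ^ T)) ≤ (1 + δ) * Real.log N ∧
    (1 - δ) * Real.log N ≤ Real.log (N / (2 * Real.log N ^ (U + 1))) ∧
    2 * √(3 * (N * Real.log N ^ T)) * Real.log (3 * (N * Real.log N ^ T)) / δ ≤ N / (4 * Real.log N ^ U) ∧
    1 < N / (2 * Real.log N ^ (U + 1)) ∧ 1 ≤ N := by
  filter_upwards [ev_log_ge (4 / δ ^ 2), ev_log_ge 4, ev_sub T (Real.log 3) δ hδ, ev_sub (U + 1) (Real.log 2) δ hδ,
    ev_log_pow (T + 2 * U + 2) (3 * (8 * (1 + δ) / δ) ^ 2), ev_log_pow (U + 1) 3, eventually_ge_atTop 1] with N h1 h2 h3 h4 h5 h6 h7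
  have hN : (1 : ℝ) ≤ N := by exact_mod_cast h7
  have hL : 0 < Real.log N := by linarith
  have hT : (0 : ℝ) < Real.log N ^ T := pow_pos hL T
  have hU : (0 : ℝ) < Real.log N ^ U := pow_pos hL U
  have hU1 : (0 : ℝ) < Real.log N ^ (U + 1) := pow_pos hL _
  have e1 : Real.log (3 * (N * Real.log N ^ T)) ≤ (1 + δ) * Real.log N := by
    rw [Real.log_mul (by norm_num) (by positivity), Real.log_mul (by positivity) (by positivity), Real.log_pow]
    linarith
  refine ⟨h1, h2, e1, ?_, ?_, ?_, h7⟩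
  · rw [Real.log_div (by positivity) (by positivity), Real.log_mul (by norm_num) (by positivity), Real.log_pow]
    push_cast at h4 ⊢
    linarith
  · have h8 : √(3 * (N * Real.log N ^ T)) ≤ N / ((8 * (1 + δ) / δ) * Real.log N ^ (U + 1)) := by
      apply Real.sqrt_le_iff.2
      refine ⟨by positivity, ?_⟩
      rw [div_pow, le_div_iff₀ (by positivity)]
      calc 3 * (N * Real.log N ^ T) * (8 * (1 + δ) / δ * Real.log N ^ (U + 1)) ^ 2 =
          (3 * (8 * (1 + δ) / δ) ^ 2 * Real.log N ^ (T + 2 * U + 2)) * N := by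
            rw [mul_pow, ← pow_mul, show T + 2 * U + 2 = T + (U + 1) * 2 by ring, pow_add]
            ring
        _ ≤ (N : ℝ) * N := mul_le_mul_of_nonneg_right h5 (by positivity)
        _ = (N : ℝ) ^ 2 := by ring
    have h9 : 0 ≤ Real.log (3 * (N * Real.log N ^ T)) := by
      apply Real.log_nonneg
      have : (1 : ℝ) ≤ Real.log N ^ T := one_le_pow₀ (by linarith)
      nlinarith [mul_le_mul hN this zero_le_one (by linarith : (0 : ℝ) ≤ N)]
    calc 2 * √(3 * (N * Real.log N ^ T)) * Real.log (3 * (N * Real.log N ^ T)) / δ ≤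
        2 * (N / ((8 * (1 + δ) / δ) * Real.log N ^ (U + 1))) * ((1 + δ) * Real.log N) / δ := by
          gcongr
      _ = N / (4 * Real.log N ^ U) := by
          rw [pow_succ]
          field_simp
          ring
  · rw [lt_div_iff₀ (by positivity)]
    linarith

theorem aa (h31 : S_T31) (T U : ℕ) (ε : ℝ) (hε : 0 < ε) : ∃ V C W N₀ : ℕ, ∀ N : ℕ, N₀ ≤ N →
    ∀ (q : ℕ) (p : ℕ → ℝ), Msh V C 1 N q p → (q : ℝ) * Real.log N ^ W ≤ N → ∀ κ : ℤ, κ ≠ 0 →
    (κ.natAbs : ℝ) ≤ Real.log N ^ T → ∀ cc : ℤ, |(cc : ℝ)| ≤ N * Real.log N ^ T → ∃ E : Finset ℕ,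
      (E.card : ℝ) ≤ N / Real.log N ^ U ∧ ∀ n : ℕ, 1 ≤ n → n ≤ N → n ∉ E → 0 < (n : ℤ) + cc →
        IsCoprime ((n : ℤ) + cc) κ →
        |cnt q p κ cc n - κ.natAbs / (Nat.totient κ.natAbs : ℝ) / Real.log N| ≤
          ε * (κ.natAbs / (Nat.totient κ.natAbs : ℝ) / Real.log N) := by
  classical
  obtain ⟨ε', hε'⟩ : ∃ ε' : ℝ, ε' = min ε 1 := ⟨_, rfl⟩
  have hε0 : 0 < ε' := by rw [hε']; exact lt_min hε one_pos
  have hε1 : ε' ≤ 1 := by rw [hε']; exact min_le_right _ _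
  have hε2 : ε' ≤ ε := by rw [hε']; exact min_le_left _ _
  obtain ⟨δ, hδ⟩ : ∃ δ : ℝ, δ = ε' / 8 := ⟨_, rfl⟩
  have hδ0 : 0 < δ := by rw [hδ]; positivity
  have hδ1 : 8 * δ ≤ 1 := by rw [hδ]; linarith
  obtain ⟨V, C, N₀, h31'⟩ := h31 T 1 (U + 1)
  obtain ⟨N₁, hev⟩ := eventually_atTop.1 (ev_all T U δ hδ0)
  refine ⟨V, C, T + U + 2, max N₀ N₁, fun N hN q p hM hqW κ hκ hκT cc hcc => ?_⟩
  obtain ⟨e1, e2, e3, e4, e5, e6, e7⟩ := hev N (le_trans (le_max_right _ _) hN)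
  have h1 := h31' N (le_trans (le_max_left _ _) hN) q p hM κ hκ hκT cc hcc
  obtain ⟨hq1, hq2, hp0, hp1, hsm⟩ := hM
  obtain ⟨L, hL⟩ : ∃ L, L = Real.log N := ⟨_, rfl⟩
  rw [← hL] at e1 e2 e3 e4 e5 e6 h1 hqW hκT hcc ⊢
  have hN1 : (1 : ℝ) ≤ N := by exact_mod_cast e7
  have hL0 : 0 < L := by linarith
  have hLT : 1 ≤ L ^ T := one_le_pow₀ (by linarith)
  have hLU : (0 : ℝ) < L ^ U := pow_pos hL0 U
  obtain ⟨X, hX⟩ : ∃ X : ℝ, X = 3 * (N * L ^ T) := ⟨_, rfl⟩
  obtain ⟨R, hR⟩ : ∃ R : ℝ, R = N / (2 * L ^ (U + 1)) := ⟨_, rfl⟩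
  rw [← hX] at e3 e5
  rw [← hR] at e4 e6
  have hX1 : 1 ≤ X := by
    rw [hX]
    nlinarith [mul_le_mul hN1 hLT zero_le_one (by linarith : (0 : ℝ) ≤ N)]
  -- the size of `κ q`
  have hκq : ((κ.natAbs : ℕ) : ℝ) * q ≤ R := by
    rw [hR, le_div_iff₀ (by positivity)]
    have h2 : (0 : ℝ) ≤ q := Nat.cast_nonneg q
    calc ((κ.natAbs : ℕ) : ℝ) * q * (2 * L ^ (U + 1)) ≤ L ^ T * q * (L * L ^ (U + 1)) := by
          gcongr
          linarith
      _ = q * L ^ (T + U + 2) := by ring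
      _ ≤ N := hqW
  have hR2 : R ≤ N := by
    rw [hR]
    apply div_le_self (by linarith)
    have : 1 ≤ L ^ (U + 1) := one_le_pow₀ (by linarith)
    linarith
  have hvκ : ∀ v ∈ range q, |((κ * (v : ℕ) : ℤ) : ℝ)| ≤ R := by
    intro v hv
    rw [mem_range] at hv
    refine le_trans ?_ hκq
    push_cast
    rw [abs_mul, Nat.abs_cast]
    have : |(κ : ℝ)| = ((κ.natAbs : ℕ) : ℝ) := by
      rw [Nat.cast_natAbs]
      push_cast
      rfl
    rw [this]
    exact mul_le_mul_of_nonneg_left (by exact_mod_cast hv.le) (Nat.cast_nonneg _)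
  have hup : ∀ n ∈ Icc 1 N, ∀ v ∈ range q, (((n : ℤ) + (cc + κ * (v : ℕ)) : ℤ) : ℝ) ≤ X := by
    intro n hn v hv
    rw [mem_Icc] at hn
    have h2 := hvκ v hv
    have h3 : (n : ℝ) ≤ N := by exact_mod_cast hn.2
    push_cast at h2 ⊢
    rw [hX]
    have h4 := (abs_le.1 h2).2
    have h5 := (abs_le.1 hcc).2
    have h6 : (N : ℝ) * 1 ≤ N * L ^ T := mul_le_mul_of_nonneg_left hLT (by linarith)
    linarith
  -- the three bad sets
  obtain ⟨F, hF⟩ : ∃ F : ℕ → ℝ, F = fun n : ℕ => ∑ v ∈ range q, p v *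
      (lamI ((n : ℤ) + (cc + κ * (v : ℕ))) - mkI κ.natAbs ((n : ℤ) + (cc + κ * (v : ℕ)))) := ⟨_, rfl⟩
  obtain ⟨G, hG⟩ : ∃ G : ℕ → ℝ, G = fun n : ℕ => ∑ v ∈ range q, p v *
      (if ((n : ℤ) + (cc + κ * (v : ℕ))).toNat.Prime then 0 else lamI ((n : ℤ) + (cc + κ * (v : ℕ)))) := ⟨_, rfl⟩
  have hFs : ∑ n ∈ Icc 1 N, F n ^ 2 ≤ N / L ^ (U + 1) := by rw [hF]; exact h1
  have hG0 : ∀ n, 0 ≤ G n := by
    intro n
    rw [hG]
    apply sum_nonneg
    intro v _
    apply mul_nonneg (hp0 v)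
    split_ifs
    · exact le_rfl
    · exact lamI_nonneg _
  have hGs : ∑ n ∈ Icc 1 N, G n ≤ 2 * √X * Real.log X := by
    rw [hG]
    rw [sum_comm]
    calc ∑ v ∈ range q, ∑ n ∈ Icc 1 N, p v *
        (if ((n : ℤ) + (cc + κ * (v : ℕ))).toNat.Prime then 0 else lamI ((n : ℤ) + (cc + κ * (v : ℕ)))) ≤
        ∑ v ∈ range q, p v * (2 * √X * Real.log X) := by
          apply sum_le_sum
          intro v hv
          rw [← mul_sum]
          exact mul_le_mul_of_nonneg_left (pp_inner N _ X hX1 fun n hn => hup n hn v hv) (hp0 v)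
      _ = 2 * √X * Real.log X := by rw [← sum_mul, hp1, one_mul]
  obtain ⟨B1, hB1⟩ : ∃ B : Finset ℕ, B = (Icc 1 N).filter (fun n => δ ^ 2 < F n ^ 2) := ⟨_, rfl⟩
  obtain ⟨B2, hB2⟩ : ∃ B : Finset ℕ, B = (Icc 1 N).filter (fun n => δ < G n) := ⟨_, rfl⟩
  obtain ⟨B3, hB3⟩ : ∃ B : Finset ℕ, B = (Icc 1 N).filter
      (fun n : ℕ => 0 < (n : ℤ) + cc ∧ (((n : ℤ) + cc : ℤ) : ℝ) < N / L ^ (U + 1)) := ⟨_, rfl⟩
  have c1 : (B1.card : ℝ) ≤ N / (4 * L ^ U) := by
    rw [hB1]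
    refine (card_markov _ (fun n => F n ^ 2) (fun i _ => sq_nonneg _) (δ ^ 2) _ (by positivity) hFs).trans ?_
    rw [div_div]
    apply div_le_div_of_nonneg_left (by linarith) (by positivity)
    rw [div_le_iff₀ (by positivity)] at e1
    rw [pow_succ]
    nlinarith
  have c2 : (B2.card : ℝ) ≤ N / (4 * L ^ U) := by
    rw [hB2]
    exact (card_markov _ G (fun i _ => hG0 i) δ _ hδ0 hGs).trans e5
  have c3 : (B3.card : ℝ) ≤ N / (4 * L ^ U) := by
    rw [hB3]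
    refine (card_small N cc _ (by positivity)).trans ?_
    apply div_le_div_of_nonneg_left (by linarith) (by positivity)
    rw [pow_succ]
    nlinarith
  refine ⟨B1 ∪ B2 ∪ B3, ?_, fun n hn1 hnN hnE hpos hcop => ?_⟩
  · have h2 : ((B1 ∪ B2 ∪ B3).card : ℝ) ≤ B1.card + B2.card + B3.card := by
      exact_mod_cast (card_union_le _ _).trans (Nat.add_le_add_right (card_union_le _ _) _)
    have h3 : (N : ℝ) / (4 * L ^ U) = N / L ^ U / 4 := by rw [div_div, mul_comm]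
    have h4 : 0 ≤ (N : ℝ) / L ^ U := by positivity
    rw [h3] at c1 c2 c3
    linarith
  · have hnI : n ∈ Icc 1 N := mem_Icc.2 ⟨hn1, hnN⟩
    rw [mem_union, mem_union, not_or, not_or] at hnE
    obtain ⟨⟨n1, n2⟩, n3⟩ := hnE
    rw [hB1, mem_filter, not_and] at n1
    rw [hB2, mem_filter, not_and] at n2
    rw [hB3, mem_filter, not_and] at n3
    have n1' := n1 hnI
    have n2' := n2 hnI
    have n3' := n3 hnI
    rw [not_and] at n3'
    have n3'' := n3' hpos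
    rw [not_lt] at n1' n2' n3''
    have hFb : |F n| ≤ δ := abs_le_of_sq_le_sq n1' hδ0.le
    have hRR : (N : ℝ) / L ^ (U + 1) = 2 * R := by
      rw [hR]
      field_simp
    rw [hRR] at n3''
    have hlow : ∀ v ∈ range q, R ≤ (((n : ℤ) + (cc + κ * (v : ℕ)) : ℤ) : ℝ) ∧
        (((n : ℤ) + (cc + κ * (v : ℕ)) : ℤ) : ℝ) ≤ X := by
      intro v hv
      refine ⟨?_, hup n hnI v hv⟩
      have h2 := (abs_le.1 (hvκ v hv)).1
      push_cast at h2 n3'' ⊢
      linarith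
    obtain ⟨d1, d2⟩ := det q p hp0 κ cc n R X e6 hlow
    obtain ⟨g, hg⟩ : ∃ g : ℝ, g = κ.natAbs / (Nat.totient κ.natAbs : ℝ) := ⟨_, rfl⟩
    have hk0 : 0 < κ.natAbs := Int.natAbs_pos.2 hκ
    have hg1 : 1 ≤ g := by
      rw [hg, le_div_iff₀ (by exact_mod_cast Nat.totient_pos.2 hk0), one_mul]
      exact_mod_cast Nat.totient_le _
    have hmk : ∀ v ∈ range q, mkI κ.natAbs ((n : ℤ) + (cc + κ * (v : ℕ))) = g := by
      intro v hv
      have h2 := (hlow v hv).1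
      have h3 : 1 ≤ (n : ℤ) + (cc + κ * (v : ℕ)) := by
        have : (1 : ℝ) < (((n : ℤ) + (cc + κ * (v : ℕ)) : ℤ) : ℝ) := lt_of_lt_of_le e6 h2
        exact_mod_cast this.le
      unfold mkI Pool.Agent.Run7.h794.MK.mk
      rw [if_pos h3, if_pos, hg]
      have h4 : IsCoprime ((n : ℤ) + (cc + κ * (v : ℕ))) κ := by
        have : (n : ℤ) + (cc + κ * (v : ℕ)) = ((n : ℤ) + cc) + κ * (v : ℕ) := by ring
        rw [this]
        exact IsCoprime.add_mul_left_left hcop _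
      rw [Int.isCoprime_iff_gcd_eq_one, Int.gcd] at h4
      rw [Nat.Coprime]
      have h5 : ((n : ℤ) + (cc + κ * (v : ℕ))).toNat = ((n : ℤ) + (cc + κ * (v : ℕ))).natAbs := by omega
      rw [h5]
      exact h4
    have hFn : F n = ∑ v ∈ range q, p v * lamI ((n : ℤ) + (cc + κ * (v : ℕ))) - g := by
      rw [hF]
      have h2 : ∑ v ∈ range q, p v * (lamI ((n : ℤ) + (cc + κ * (v : ℕ))) - mkI κ.natAbs ((n : ℤ) + (cc + κ * (v : ℕ)))) =
          ∑ v ∈ range q, (p v * lamI ((n : ℤ) + (cc + κ * (v : ℕ))) - p v * g) := by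
        refine sum_congr rfl fun v hv => ?_
        rw [hmk v hv]
        ring
      simp only
      rw [h2, sum_sub_distrib, ← sum_mul, hp1, one_mul]
    have hGn : G n = ∑ v ∈ range q, p v *
      (if ((n : ℤ) + (cc + κ * (v : ℕ))).toNat.Prime then 0 else lamI ((n : ℤ) + (cc + κ * (v : ℕ)))) := by rw [hG]
    rw [← hGn] at d2
    obtain ⟨S, hS⟩ : ∃ S : ℝ, S = ∑ v ∈ range q, p v * lamI ((n : ℤ) + (cc + κ * (v : ℕ))) := ⟨_, rfl⟩
    rw [← hS] at d1 d2 hFn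
    obtain ⟨c, hc⟩ : ∃ c : ℝ, c = cnt q p κ cc n := ⟨_, rfl⟩
    rw [← hc] at d1 d2 ⊢
    rw [← hg]
    have hc0 : 0 ≤ c := by
      rw [hc]
      unfold cnt
      apply sum_nonneg
      intro v _
      apply mul_nonneg (hp0 v)
      split_ifs <;> norm_num
    have hFb' := abs_le.1 hFb
    have hgL : 0 < g / L := div_pos (by linarith) hL0
    have up : c * L ≤ (1 + ε') * g := by
      have h2 : (1 - δ) * L * c ≤ g + δ := by
        calc (1 - δ) * L * c ≤ Real.log R * c := mul_le_mul_of_nonneg_right e4 hc0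
          _ ≤ S := d1
          _ ≤ g + δ := by linarith
      have h3 : (1 - δ) * (c * L) ≤ (1 - δ) * ((1 + ε') * g) := by
        have h4 : ε' = 8 * δ := by rw [hδ]; ring
        rw [h4]
        nlinarith [mul_nonneg hδ0.le (by linarith : (0 : ℝ) ≤ g - 1), mul_nonneg hδ0.le (by linarith : (0 : ℝ) ≤ g),
          mul_nonneg (mul_nonneg hδ0.le (by linarith : (0 : ℝ) ≤ g)) (by linarith : (0 : ℝ) ≤ 1 - 8 * δ)]
      exact le_of_mul_le_mul_left h3 (by linarith)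
    have lo : (1 - ε') * g ≤ c * L := by
      have h2 : g - 2 * δ ≤ (1 + δ) * L * c := by
        calc g - 2 * δ ≤ S - G n := by linarith
          _ ≤ Real.log X * c := by linarith
          _ ≤ (1 + δ) * L * c := mul_le_mul_of_nonneg_right e3 hc0
      have h3 : (1 + δ) * ((1 - ε') * g) ≤ (1 + δ) * (c * L) := by
        have h4 : ε' = 8 * δ := by rw [hδ]; ring
        rw [h4]
        nlinarith [mul_nonneg hδ0.le (by linarith : (0 : ℝ) ≤ g - 1), mul_nonneg hδ0.le (by linarith : (0 : ℝ) ≤ g),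
          mul_nonneg (mul_nonneg hδ0.le hδ0.le) (by linarith : (0 : ℝ) ≤ g)]
      exact le_of_mul_le_mul_left h3 (by linarith)
    have hcL : c = c * L / L := by field_simp
    have h5 : |c - g / L| ≤ ε' * (g / L) := by
      rw [abs_le]
      constructor
      · have : (1 - ε') * g / L ≤ c * L / L := div_le_div_of_nonneg_right lo hL0.le
        rw [← hcL] at this
        have e : (1 - ε') * g / L = g / L - ε' * (g / L) := by ring
        linarith
      · have : c * L / L ≤ (1 + ε') * g / L := div_le_div_of_nonneg_right up hL0.le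
        rw [← hcL] at this
        have e : (1 + ε') * g / L = g / L + ε' * (g / L) := by ring
        linarith
    exact h5.trans (mul_le_mul_of_nonneg_right hε2 hgL.le)

end Pool.Agent.Run7.h931.MK
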