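import Mathlib
import Pool.Agent.Run7.h794.MK.Stm3
import Pool.Agent.Run7.h477.MK.Arc
import Pool.Agent.H373R2.T7.LamZ2
import Pool.Agent.H373R2.T7.Minor

/-!
# Project MK, piece ARC1: the discrete Gallagher lemma for `Λ - mk q` on the major arcs (adapted from `Run7.h477.MK.arc` and
`Pool.Agent.Run7.h18.MK.t_ARC0`)
-/

set_option autoImplicit false

namespace Pool.Agent.Run7.h931.MK

open Finset
open Pool.Agent.H807R2.Dav (ee norm_ee ee_add ee_zero ee_int ee_add_int ee_pow)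
open Pool.Agent.Run7.h794.MK
open Pool.Agent.H373R2.T7
open _root_.Run7.h477.MK

lemma mk_le_Vz (q n : ℕ) (hq : 1 ≤ q) : mk q n ≤ (Vz q)⁻¹ := by
  have hV := Vz_pos q
  unfold Pool.Agent.Run7.h794.MK.mk
  split_ifs
  · have h1 : (Nat.totient q : ℚ) = q * ∏ p ∈ q.primeFactors, (1 - (p : ℚ)⁻¹) := Nat.totient_eq_mul_prod_factors q
    have h2 : (Nat.totient q : ℝ) = q * ∏ p ∈ q.primeFactors, (1 - (p : ℝ)⁻¹) := by
      have := congrArg (fun x : ℚ => (x : ℝ)) h1
      push_cast at this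
      exact this
    have hq0 : (0 : ℝ) < q := by exact_mod_cast hq
    have h3 : Vz q ≤ ∏ p ∈ q.primeFactors, (1 - (p : ℝ)⁻¹) := by
      have hsub : q.primeFactors ⊆ pz q := by
        intro p hp
        rw [mem_pz]
        exact ⟨Nat.le_of_mem_primeFactors hp, Nat.prime_of_mem_primeFactors hp⟩
      have hf : ∀ p ∈ pz q, 0 ≤ 1 - (p : ℝ)⁻¹ ∧ 1 - (p : ℝ)⁻¹ ≤ 1 := by
        intro p hp
        rw [mem_pz] at hp
        have hp1 : (1 : ℝ) ≤ p := by exact_mod_cast hp.2.one_lt.le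
        have := inv_le_one_of_one_le₀ hp1
        have h0 : 0 ≤ (p : ℝ)⁻¹ := by positivity
        constructor <;> linarith
      have h4 : Vz q = (∏ p ∈ pz q \ q.primeFactors, (1 - (p : ℝ)⁻¹)) * ∏ p ∈ q.primeFactors, (1 - (p : ℝ)⁻¹) := by
        rw [prod_sdiff hsub]
        unfold Vz
        refine prod_congr rfl fun p _ => ?_
        rw [one_div]
      rw [h4]
      apply mul_le_of_le_one_left
      · exact prod_nonneg fun p hp => (hf p (hsub hp)).1
      · apply prod_le_one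
        · intro p hp
          exact (hf p (mem_sdiff.1 hp).1).1
        · intro p hp
          exact (hf p (mem_sdiff.1 hp).1).2
    have h4 : 0 < ∏ p ∈ q.primeFactors, (1 - (p : ℝ)⁻¹) := lt_of_lt_of_le hV h3
    rw [h2, div_mul_eq_div_div, div_self hq0.ne', one_div]
    exact inv_anti₀ hV h3
  · exact (inv_pos.2 hV).le

theorem t_ARC1 (hMAJ : S_MAJ1) : S_ARC1 := by
  intro B U
  obtain ⟨C₀, hall⟩ := hMAJ (B + 1) (2 * U + 5)
  obtain ⟨X₁, hall⟩ := hall
  obtain ⟨n1, h1⟩ := Vz_inv_small B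
  obtain ⟨n2, h2⟩ := ev_L' (2 ^ (2 * U + 10) + 64 + 2 ^ (B + 1))
  obtain ⟨n3, h3⟩ := ev_log' (2 * C₀ + U + 4) 4
  obtain ⟨n4, h4⟩ := ev_log' (C₀ + U + 2) 512
  refine ⟨C₀ + 1, n1 + n2 + n3 + n4 + X₁ ^ 2 + 16, fun X hX q hq1 hqB M hM r H hH a hra => ?_⟩
  have h1 := h1 X (by omega)
  have h2 := h2 X (by omega)
  have h3 := h3 X (by omega)
  have h4 := h4 X (by omega)
  have hX16 : 16 ≤ X := by omega
  have hXX : X₁ ^ 2 ≤ X := by omega
  have hX0 : (0 : ℝ) < X := by exact_mod_cast (by omega : 0 < X)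
  have hX1 : (1 : ℝ) ≤ X := by exact_mod_cast (by omega : 1 ≤ X)
  set L := Real.log X with hL
  have hp1 : (0 : ℝ) < 2 ^ (2 * U + 10) := by positivity
  have hp3 : (0 : ℝ) < 2 ^ (B + 1) := by positivity
  have hL64 : 64 ≤ L := by linarith
  have hLU : (2 : ℝ) ^ (2 * U + 10) ≤ L := by linarith
  have hLB : (2 : ℝ) ^ (B + 1) ≤ L := by linarith
  have hL0 : 0 < L := by linarith
  have hL1 : 1 ≤ L := by linarith
  have hV := h1 q hq1 hqB
  -- the cube root
  set c3 : ℝ := (X : ℝ) ^ (1 / 3 : ℝ) with hc3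
  have hc31 : 1 ≤ c3 := Real.one_le_rpow hX1 (by norm_num)
  have hc3s : c3 ≤ √X := by
    rw [Real.sqrt_eq_rpow]
    exact Real.rpow_le_rpow_of_exponent_le hX1 (by norm_num)
  have hss : √(X : ℝ) * √X = X := Real.mul_self_sqrt hX0.le
  have hs0 : 0 < √(X : ℝ) := Real.sqrt_pos.2 hX0
  set Y : ℕ := ⌈c3 * L ^ C₀⌉₊ with hY
  have hYge : c3 * L ^ C₀ ≤ Y := Nat.le_ceil _
  have hLC : 1 ≤ L ^ C₀ := one_le_pow₀ hL1
  have hcL : 1 ≤ c3 * L ^ C₀ := by nlinarith
  have hYle : (Y : ℝ) ≤ 2 * (c3 * L ^ C₀) := by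
    have := (Nat.ceil_lt_add_one (by linarith : 0 ≤ c3 * L ^ C₀)).le
    linarith
  have hY1 : (1 : ℝ) ≤ Y := hcL.trans hYge
  have hY1' : 1 ≤ Y := by exact_mod_cast hY1
  -- Y is small
  have hYs : (256 : ℝ) * Y * L ^ (U + 2) ≤ X := by
    have e1 : L ^ (C₀ + U + 2) = L ^ C₀ * L ^ (U + 2) := by rw [add_assoc, pow_add]
    rw [e1] at h4
    have h5 : 0 < L ^ (U + 2) := by positivity
    calc (256 : ℝ) * Y * L ^ (U + 2) ≤ 256 * (2 * (c3 * L ^ C₀)) * L ^ (U + 2) := by gcongr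
      _ = c3 * (512 * (L ^ C₀ * L ^ (U + 2))) := by ring
      _ ≤ √X * √X := mul_le_mul hc3s h4 (by positivity) hs0.le
      _ = X := hss
  have hYX : Y ≤ X := by
    have h5 : 1 ≤ L ^ (U + 2) := one_le_pow₀ hL1
    have h6 : (Y : ℝ) ≤ X := by nlinarith
    exact_mod_cast h6
  -- H is large
  have hH8 : 8 * Y ≤ H := by
    have h5 : (8 : ℝ) * Y ≤ H := by
      refine le_trans ?_ hH
      rw [pow_succ]
      nlinarith
    exact_mod_cast h5
  -- the number of dyadic steps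
  obtain ⟨I', hI1, hI2⟩ := exists_nat_pow_near (one_le_pow₀ hL1 : 1 ≤ L ^ (U + 4)) (by norm_num : (1 : ℝ) < 2)
  set I := I' + 1 with hI
  have hIle : (I : ℝ) ≤ 2 * L ^ (U + 4) := by
    have h5 : (I : ℝ) ≤ 2 ^ I := by
      have := (Nat.lt_two_pow_self (n := I)).le
      exact_mod_cast this
    rw [hI, pow_succ] at h5
    rw [hI]
    linarith
  have h2I : (2 : ℝ) ^ I ≤ 2 * L ^ (U + 4) := by
    rw [hI, pow_succ]; linarith
  have h2I' : L ^ (U + 4) ≤ (2 : ℝ) ^ I := hI2.le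
  -- the dyadic points are large
  have hxi : ∀ i < I, √X ≤ xi X (i + 1) ∧ (Y : ℝ) * L ^ C₀ ≤ xi X (i + 1) := by
    intro i hi
    have h5 : xi X I ≤ xi X (i + 1) := xi_anti X (by omega)
    have h6 : (xi X I : ℝ) ≤ xi X (i + 1) := by exact_mod_cast h5
    have h7 := xi_ge X I
    have h8 : (X : ℝ) / (2 * L ^ (U + 4)) ≤ X / 2 ^ I := div_le_div_of_nonneg_left hX0.le (by positivity) h2I
    have h9 : (Y : ℝ) * L ^ C₀ ≤ X / (2 * L ^ (U + 4)) := by
      rw [le_div_iff₀ (by positivity)]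
      have e1 : L ^ (2 * C₀ + U + 4) = L ^ C₀ * L ^ C₀ * L ^ (U + 4) := by
        rw [← pow_add, ← pow_add]; congr 1; ring
      rw [e1] at h3
      calc (Y : ℝ) * L ^ C₀ * (2 * L ^ (U + 4)) ≤ (2 * (c3 * L ^ C₀)) * L ^ C₀ * (2 * L ^ (U + 4)) := by gcongr
        _ = c3 * (4 * (L ^ C₀ * L ^ C₀ * L ^ (U + 4))) := by ring
        _ ≤ √X * √X := mul_le_mul hc3s h3 (by positivity) hs0.le
        _ = X := hss
    have h10 : √(X : ℝ) ≤ X / (2 * L ^ (U + 4)) := by
      rw [le_div_iff₀ (by positivity)]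
      have e1 : L ^ (U + 4) ≤ L ^ (2 * C₀ + U + 4) := pow_le_pow_right₀ hL1 (by omega)
      have e2 : 2 * L ^ (U + 4) ≤ √X := by
        have : 0 < L ^ (U + 4) := by positivity
        linarith
      calc √(X : ℝ) * (2 * L ^ (U + 4)) ≤ √X * √X := mul_le_mul_of_nonneg_left e2 hs0.le
        _ = X := hss
    exact ⟨by linarith, by linarith⟩
  set g : ℕ → ℝ := fun n => ArithmeticFunction.vonMangoldt n - mk q n with hg
  have hgB : ∀ n ∈ Icc 1 X, |g n| ≤ 2 * L := by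
    intro n hn
    rw [mem_Icc] at hn
    have h5 : ArithmeticFunction.vonMangoldt n ≤ L := by
      refine ArithmeticFunction.vonMangoldt_le_log.trans ?_
      exact Real.log_le_log (by exact_mod_cast hn.1) (by exact_mod_cast hn.2)
    have h6 : 0 ≤ ArithmeticFunction.vonMangoldt n := ArithmeticFunction.vonMangoldt_nonneg
    have h7 : 0 ≤ mk q n := by
      unfold Pool.Agent.Run7.h794.MK.mk
      split_ifs
      · positivity
      · exact le_rfl
    have h8 : mk q n ≤ L := (mk_le_Vz q n hq1).trans hV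
    rw [hg, abs_le]
    constructor <;> simp only <;> linarith
  -- the sum over the dyadic ranges
  have hMS : ∀ i ∈ range I, MS g ((r : ℝ) / M) (xi X (i + 1)) Y ≤ X * (Y : ℝ) ^ 2 * (2 / L) ^ (2 * U + 5) := by
    intro i hi
    rw [mem_range] at hi
    obtain ⟨h5, h6⟩ := hxi i hi
    set x := xi X (i + 1) with hx
    have hx0 : (0 : ℝ) < x := lt_of_lt_of_le hs0 h5
    have hxX : (x : ℝ) ≤ X := by exact_mod_cast xi_le X (i + 1)
    have hlx : Real.log x ≤ L := Real.log_le_log hx0 hxX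
    have hlx2 : L / 2 ≤ Real.log x := by
      have := Real.log_le_log hs0 h5
      rw [Real.log_sqrt hX0.le] at this
      exact this
    have hlx0 : 0 < Real.log x := by linarith
    have hxX1 : X₁ ≤ x := by
      have h7 : (X₁ : ℝ) ≤ √X := by
        apply Real.le_sqrt_of_sq_le
        exact_mod_cast hXX
      exact_mod_cast h7.trans h5
    have hLB1 : L ^ B ≤ Real.log x ^ (B + 1) := by
      refine le_trans ?_ (pow_le_pow_left₀ (by linarith) hlx2 _)
      rw [div_pow, le_div_iff₀ (by positivity), pow_succ L B]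
      exact mul_le_mul_of_nonneg_left hLB (by positivity)
    have h7 := hall x hxX1 q hq1 (hqB.trans hLB1) Y (by
      refine le_trans ?_ hYge
      exact mul_le_mul (Real.rpow_le_rpow hx0.le hxX (by norm_num)) (pow_le_pow_left₀ hlx0.le hlx _)
        (by positivity) (by positivity)) (by
      refine le_trans ?_ h6
      exact mul_le_mul_of_nonneg_left (pow_le_pow_left₀ hlx0.le hlx _) (by positivity)) a ((r : ℝ) / M) (by
      refine hra.trans ?_
      apply div_le_div₀ (by positivity) hLB1 (by linarith)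
      have h8 : Y ≤ H := by omega
      exact_mod_cast h8)
    refine h7.trans ?_
    rw [div_eq_mul_inv, ← inv_pow]
    refine mul_le_mul (mul_le_mul_of_nonneg_right hxX (by positivity)) ?_ (by positivity) (by positivity)
    apply pow_le_pow_left₀ (by positivity)
    rw [inv_eq_one_div, div_le_div_iff₀ hlx0 hL0]
    linarith
  have hsum : ∑ m ∈ range (X + Y), ‖TT (fun n => (g n : ℂ)) X Y ((r : ℝ) / M) m‖ ^ 2 ≤
      X * (Y : ℝ) ^ 2 / (4 * L ^ U) := by
    refine (sum_TT_le g X Y I ((r : ℝ) / M) (2 * L) (by positivity) hgB).trans ?_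
    have h5 := sum_le_sum hMS
    rw [sum_const, card_range, nsmul_eq_mul] at h5
    have hY2 : 0 < X * (Y : ℝ) ^ 2 := by positivity
    have hLU0 : 0 < L ^ U := by positivity
    -- first term
    have h6 : (I : ℝ) * (X * (Y : ℝ) ^ 2 * (2 / L) ^ (2 * U + 5)) ≤ X * (Y : ℝ) ^ 2 / (16 * L ^ U) := by
      have e1 : (I : ℝ) * (2 / L) ^ (2 * U + 5) ≤ 1 / (16 * L ^ U) := by
        rw [div_pow, mul_div_assoc', div_le_div_iff₀ (by positivity) (by positivity), one_mul]
        calc (I : ℝ) * 2 ^ (2 * U + 5) * (16 * L ^ U) ≤ (2 * L ^ (U + 4)) * 2 ^ (2 * U + 5) * (16 * L ^ U) := by gcongr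
          _ = 2 ^ (2 * U + 10) * L ^ (2 * U + 4) := by
              have : L ^ (2 * U + 4) = L ^ (U + 4) * L ^ U := by rw [← pow_add]; congr 1; ring
              rw [this]; ring
          _ ≤ L * L ^ (2 * U + 4) := mul_le_mul_of_nonneg_right hLU (by positivity)
          _ = L ^ (2 * U + 5) := by ring
      calc (I : ℝ) * (X * (Y : ℝ) ^ 2 * (2 / L) ^ (2 * U + 5)) = (X * (Y : ℝ) ^ 2) * ((I : ℝ) * (2 / L) ^ (2 * U + 5)) := by ring
        _ ≤ (X * (Y : ℝ) ^ 2) * (1 / (16 * L ^ U)) := mul_le_mul_of_nonneg_left e1 hY2.le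
        _ = _ := by ring
    have h7 : (xi X I : ℝ) ≤ X / L ^ (U + 4) + 1 := by
      refine (xi_le' X I).trans ?_
      have := div_le_div_of_nonneg_left hX0.le (by positivity) h2I'
      linarith
    have h8 : ((xi X I : ℝ) + 2 * Y + 1) * (2 * L * Y) ^ 2 ≤ 2 * (X * (Y : ℝ) ^ 2 / (16 * L ^ U)) := by
      have e1 : (xi X I : ℝ) + 2 * Y + 1 ≤ X / L ^ (U + 4) + 4 * Y := by linarith
      have e2 : X / L ^ (U + 4) * (4 * L ^ 2) ≤ X / (16 * L ^ U) := by
        rw [div_mul_eq_mul_div, div_le_div_iff₀ (by positivity) (by positivity)]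
        have e3 : (64 : ℝ) ≤ L ^ 2 := by nlinarith
        have e4 : L ^ (U + 4) = L ^ 2 * L ^ 2 * L ^ U := by ring
        rw [e4]
        have : X * (4 * L ^ 2) * (16 * L ^ U) = X * L ^ 2 * L ^ U * 64 := by ring
        rw [this]
        have : X * (L ^ 2 * L ^ 2 * L ^ U) = X * L ^ 2 * L ^ U * L ^ 2 := by ring
        rw [this]
        exact mul_le_mul_of_nonneg_left e3 (by positivity)
      have e3 : 4 * (Y : ℝ) * (4 * L ^ 2) ≤ X / (16 * L ^ U) := by
        rw [le_div_iff₀ (by positivity)]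
        calc 4 * (Y : ℝ) * (4 * L ^ 2) * (16 * L ^ U) = 256 * Y * L ^ (U + 2) := by ring
          _ ≤ X := hYs
      calc ((xi X I : ℝ) + 2 * Y + 1) * (2 * L * Y) ^ 2 ≤ (X / L ^ (U + 4) + 4 * Y) * (2 * L * Y) ^ 2 :=
            mul_le_mul_of_nonneg_right e1 (by positivity)
        _ = (X / L ^ (U + 4) * (4 * L ^ 2) + 4 * (Y : ℝ) * (4 * L ^ 2)) * (Y : ℝ) ^ 2 := by ring
        _ ≤ (X / (16 * L ^ U) + X / (16 * L ^ U)) * (Y : ℝ) ^ 2 := by
            apply mul_le_mul_of_nonneg_right _ (by positivity)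
            linarith
        _ = _ := by ring
    have h9 : X * (Y : ℝ) ^ 2 / (16 * L ^ U) = (X * (Y : ℝ) ^ 2 / (4 * L ^ U)) / 4 := by
      rw [div_div]; congr 1; ring
    have h10 : 0 < X * (Y : ℝ) ^ 2 / (4 * L ^ U) := by positivity
    linarith
  -- conclusion
  have hHpos : 0 < H := by omega
  have hK8 : 8 * Y * (M / H) ≤ M := (Nat.mul_le_mul_right _ hH8).trans (Nat.mul_div_le M H)
  have hK2 : 2 * (M / H) + 1 ≤ M := by
    have : 8 * (M / H) ≤ 8 * Y * (M / H) := by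
      apply Nat.mul_le_mul_right; omega
    omega
  have hfin := gallagher (fun n => (g n : ℂ)) X Y M (M / H) (by omega) (by omega) r hK2 hK8
  have hDF : ∀ s : ℤ, DF g X M (r + s) = ∑ n ∈ Icc 1 X, (g n : ℂ) * ee ((n : ℝ) * (((r + s : ℤ) : ℝ) / M)) := fun s => rfl
  have hgoal : ∑ s ∈ Icc (-((M / H : ℕ) : ℤ)) ((M / H : ℕ) : ℤ), ‖DF g X M (r + s)‖ ^ 2 ≤ M * X / L ^ U := by
    simp_rw [hDF]
    have hM0 : (0 : ℝ) ≤ M := Nat.cast_nonneg _
    have h5 := hfin.trans (mul_le_mul_of_nonneg_left hsum hM0)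
    have h6 : (0 : ℝ) < ((Y : ℝ) / 2) ^ 2 := by positivity
    refine le_of_mul_le_mul_right (h5.trans (le_of_eq ?_)) h6
    field_simp
    ring
  exact hgoal

end Pool.Agent.Run7.h931.MK
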