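import Pool.Agent.Run7.h931.MK.Ev4
import Pool.Agent.Run7.h931.MK.Arc1
import Pool.Agent.Run7.h18.MK.T31
import Pool.Agent.Run7.h880.MK.Maj1
import Pool.Agent.Run7.h794.MK.SiaAll

/-!
# Project MK: the chain for `S_T31`, `S_EV`
-/

set_option autoImplicit false

namespace Pool.Agent.Run7.h931.MK

open Finset
open Pool.Agent.Run7.h794.MK
open Pool.Agent.N384.MQ (Flat ev_log_pow ev_log_ge)

/-- sparse windows in mean square -/
theorem t31 : S_T31 := Pool.Agent.Run7.h18.MK.t_T31 (t_ARC1 (Pool.Agent.Run7.h880.MK.t_MAJ1 Pool.Agent.Run7.h794.MK.sia_all))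

theorem ev : S_EV := t_EV t31

lemma flat_mono {ι : Type} {q : ℕ} [NeZero q] {η η' : ℝ} (h : η ≤ η') {s : Finset ι} {y : ι → ZMod q} (hf : Flat q η s y) :
    Flat q η' s y := fun k hk => (hf k hk).trans (mul_le_mul_of_nonneg_right h (Nat.cast_nonneg _))

lemma flat_pow {ι : Type} {q : ℕ} [NeZero q] {L : ℝ} (hL : 1 ≤ L) {V V' : ℕ} (h : V ≤ V') {s : Finset ι} {y : ι → ZMod q}
    (hf : Flat q (1 / L ^ V') s y) : Flat q (1 / L ^ V) s y :=
  flat_mono (one_div_le_one_div_of_le (by positivity) (pow_le_pow_right₀ hL h)) hf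

end Pool.Agent.Run7.h931.MK
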