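import Pool.Agent.Run7.h931.MK.Ev

/-!
# Project MK: every shift (piece EV), second part: pairs
-/

set_option autoImplicit false

namespace Pool.Agent.Run7.h931.MK

open Finset Filter
open Pool.Agent.Run7.h794.MK
open Pool.Agent.N384.MQ (Sm Flat dis sm_dis dis_nonneg dis_sum_real ev_log_pow ev_log_ge)

lemma cnt_nonneg (q : ℕ) (p : ℕ → ℝ) (hp : ∀ v, 0 ≤ p v) (κ cc : ℤ) (n : ℕ) : 0 ≤ cnt q p κ cc n := by
  unfold cnt
  apply sum_nonneg
  intro v _
  apply mul_nonneg (hp v)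
  split_ifs <;> norm_num

lemma cnt_le_one (q : ℕ) (p : ℕ → ℝ) (hp : ∀ v, 0 ≤ p v) (hp1 : ∑ v ∈ range q, p v = 1) (κ cc : ℤ) (n : ℕ) :
    cnt q p κ cc n ≤ 1 := by
  unfold cnt
  refine le_trans (sum_le_sum (g := p) fun v _ => ?_) hp1.le
  split_ifs
  · rw [mul_one]
  · rw [mul_zero]
    exact hp v

/-- the sum over a set of integers, apart from few exceptions -/
lemma sum_core (q : ℕ) (p : ℕ → ℝ) (hp : ∀ v, 0 ≤ p v) (hp1 : ∑ v ∈ range q, p v = 1) (κ cc : ℤ) (G ε : ℝ) (hG : 0 ≤ G)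
    (hε : 0 ≤ ε) (E B : Finset ℕ) (h : ∀ n ∈ B, n ∉ E → |cnt q p κ cc n - G| ≤ ε * G) :
    |∑ n ∈ B, cnt q p κ cc n - B.card * G| ≤ ε * (B.card * G) + E.card * (1 + G) := by
  classical
  have h1 : ∑ n ∈ B, cnt q p κ cc n - B.card * G = ∑ n ∈ B, (cnt q p κ cc n - G) := by
    rw [sum_sub_distrib, sum_const, nsmul_eq_mul]
  rw [h1]
  refine (abs_sum_le_sum_abs _ _).trans ?_
  have h2 : ∀ n ∈ B, |cnt q p κ cc n - G| ≤ ε * G + if n ∈ E then 1 + G else 0 := by
    intro n hn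
    by_cases hnE : n ∈ E
    · rw [if_pos hnE]
      have h3 := cnt_nonneg q p hp κ cc n
      have h4 := cnt_le_one q p hp hp1 κ cc n
      have h5 : |cnt q p κ cc n - G| ≤ 1 + G := by
        rw [abs_le]
        constructor <;> linarith
      have : 0 ≤ ε * G := mul_nonneg hε hG
      linarith
    · rw [if_neg hnE, add_zero]
      exact h n hn hnE
  refine (sum_le_sum h2).trans ?_
  rw [sum_add_distrib, sum_const, nsmul_eq_mul, ← sum_filter, sum_const, nsmul_eq_mul]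
  have h3 : ((B.filter fun n => n ∈ E).card : ℝ) ≤ E.card := by
    have : (B.filter fun n => n ∈ E) ⊆ E := fun n hn => (mem_filter.1 hn).2
    exact_mod_cast card_le_card this
  have h4 : ((B.filter fun n => n ∈ E).card : ℝ) * (1 + G) ≤ E.card * (1 + G) :=
    mul_le_mul_of_nonneg_right h3 (by linarith)
  linarith

/-- the distribution of a family -/
lemma msh_dis (V C N q : ℕ) [NeZero q] (h1 : (N : ℝ) ^ (1 / 3 : ℝ) * Real.log N ^ C ≤ q) (h2 : q ≤ N) {ι : Type} (s : Finset ι)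
    (y : ι → ZMod q) (hs : s.Nonempty) (hf : Flat q (1 / Real.log N ^ V) s y) : Msh V C 1 N q (dis s y) := by
  refine ⟨h1, by omega, dis_nonneg s y, ?_, sm_dis hs hf⟩
  have h3 := dis_sum_real s y q le_rfl (fun _ => 1)
  have hs0 : (0 : ℝ) < s.card := by exact_mod_cast hs.card_pos
  simp only [mul_one, sum_const, nsmul_eq_mul] at h3
  rw [h3, div_self hs0.ne']

open Classical in
lemma cnt_dis {q : ℕ} [NeZero q] {ι : Type} (s : Finset ι) (y : ι → ZMod q) (hs : s.Nonempty) (κ cc : ℤ) (n : ℕ) :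
    (s.card : ℝ) * cnt q (dis s y) κ cc n =
      ((s.filter fun i => ((n : ℤ) + (cc + κ * ((y i).val : ℕ))).toNat.Prime).card : ℝ) := by
  have hs0 : (0 : ℝ) < s.card := by exact_mod_cast hs.card_pos
  unfold cnt
  rw [dis_sum_real s y q le_rfl (fun v => if ((n : ℤ) + (cc + κ * (v : ℕ))).toNat.Prime then 1 else 0),
    mul_div_cancel₀ _ hs0.ne']
  rw [sum_boole]

/-- the number of the pairs -/
theorem pairs (h31 : S_T31) (T : ℕ) (ε : ℝ) (hε : 0 < ε) : ∃ V C W N₀ : ℕ, ∀ N : ℕ, N₀ ≤ N →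
    ∀ (q : ℕ) [NeZero q], (N : ℝ) ^ (1 / 3 : ℝ) * Real.log N ^ C ≤ q → (q : ℝ) * Real.log N ^ W ≤ N →
    ∀ {ι : Type} (s : Finset ι) (y : ι → ZMod q), s.Nonempty → Flat q (1 / Real.log N ^ V) s y →
    ∀ κ : ℤ, κ ≠ 0 → (κ.natAbs : ℝ) ≤ Real.log N ^ T → ∀ cc : ℤ, |(cc : ℝ)| ≤ N * Real.log N ^ T →
    ∀ B : Finset ℕ, (∀ n ∈ B, 1 ≤ n ∧ n ≤ N ∧ 0 < (n : ℤ) + cc ∧ IsCoprime ((n : ℤ) + cc) κ) →
      (N : ℝ) ≤ B.card * Real.log N ^ T →
    |(((B ×ˢ s).filter fun g => ((g.1 : ℤ) + (cc + κ * ((y g.2).val : ℕ))).toNat.Prime).card : ℝ) -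
      κ.natAbs / (Nat.totient κ.natAbs : ℝ) * (B.card * s.card / Real.log N)| ≤
      ε * (κ.natAbs / (Nat.totient κ.natAbs : ℝ) * (B.card * s.card / Real.log N)) := by
  classical
  obtain ⟨V, C, W, N₀, h⟩ := aa h31 T (T + 2) (ε / 2) (by positivity)
  obtain ⟨N₁, hev⟩ := eventually_atTop.1 ((ev_log_ge 1).and (ev_log_ge (4 / ε)))
  refine ⟨V, C, W, max N₀ (max N₁ 1), fun N hN q _ hq1 hq2 ι s y hs hf κ hκ hκT cc hcc B hB hBN => ?_⟩
  obtain ⟨l1, l2⟩ := hev N (le_trans (le_trans (le_max_left _ _) (le_max_right _ _)) hN)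
  obtain ⟨L, hL⟩ : ∃ L, L = Real.log N := ⟨_, rfl⟩
  have hL1 : 1 ≤ L := by rw [hL]; exact l1
  have hL0 : 0 < L := by linarith
  have hq3 : q ≤ N := by
    have h2 : (q : ℝ) ≤ q * Real.log N ^ W := le_mul_of_one_le_right (Nat.cast_nonneg q) (one_le_pow₀ l1)
    exact_mod_cast h2.trans hq2
  have hM := msh_dis V C N q hq1 hq3 s y hs hf
  have hp0 := hM.2.2.1
  have hp1 := hM.2.2.2.1
  obtain ⟨E, hE1, hE2⟩ := h N (le_trans (le_max_left _ _) hN) q (dis s y) hM hq2 κ hκ hκT cc hcc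
  obtain ⟨g, hg⟩ : ∃ g : ℝ, g = κ.natAbs / (Nat.totient κ.natAbs : ℝ) := ⟨_, rfl⟩
  have hk0 : 0 < κ.natAbs := Int.natAbs_pos.2 hκ
  have hg1 : 1 ≤ g := by
    rw [hg, le_div_iff₀ (by exact_mod_cast Nat.totient_pos.2 hk0), one_mul]
    exact_mod_cast Nat.totient_le _
  rw [← hg] at hE2 ⊢
  rw [← hL] at hE1 hE2 hBN l1 l2 ⊢
  have hG : 0 ≤ g / L := by positivity
  have h3 := sum_core q (dis s y) hp0 hp1 κ cc (g / L) (ε / 2) hG (by positivity) E B (fun n hn hnE => by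
    obtain ⟨b1, b2, b3, b4⟩ := hB n hn
    exact hE2 n b1 b2 hnE b3 b4)
  have hs0 : (0 : ℝ) < s.card := by exact_mod_cast hs.card_pos
  have h4 : (((B ×ˢ s).filter fun g => ((g.1 : ℤ) + (cc + κ * ((y g.2).val : ℕ))).toNat.Prime).card : ℝ) =
      s.card * ∑ n ∈ B, cnt q (dis s y) κ cc n := by
    rw [mul_sum, card_eq_sum_card_fiberwise (f := fun g : ℕ × ι => g.1) (t := B)
      (fun g hg => (mem_product.1 (mem_filter.1 hg).1).1)]
    push_cast
    refine sum_congr rfl fun n hn => ?_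
    rw [cnt_dis s y hs κ cc n]
    congr 1
    apply card_bij (fun g _ => g.2)
    · intro g hg
      rw [mem_filter, mem_filter, mem_product] at hg
      rw [mem_filter]
      obtain ⟨⟨⟨_, a2⟩, a3⟩, a4⟩ := hg
      subst a4
      exact ⟨a2, a3⟩
    · intro a ha b hb hab
      rw [mem_filter] at ha hb
      exact Prod.ext (ha.2.trans hb.2.symm) hab
    · intro i hi
      rw [mem_filter] at hi
      exact ⟨(n, i), mem_filter.2 ⟨mem_filter.2 ⟨mem_product.2 ⟨hn, hi.1⟩, hi.2⟩, rfl⟩, rfl⟩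
  rw [h4]
  have h5 : (s.card : ℝ) * ∑ n ∈ B, cnt q (dis s y) κ cc n - g * (B.card * s.card / L) =
      s.card * (∑ n ∈ B, cnt q (dis s y) κ cc n - B.card * (g / L)) := by ring
  rw [h5, abs_mul, abs_of_pos hs0]
  have h6 : (E.card : ℝ) * (1 + g / L) ≤ ε / 2 * (B.card * (g / L)) := by
    have h7 : (E.card : ℝ) ≤ B.card / L ^ 2 := by
      refine hE1.trans ?_
      rw [div_le_div_iff₀ (by positivity) (by positivity), pow_add]
      calc (N : ℝ) * L ^ 2 ≤ (B.card * L ^ T) * L ^ 2 := mul_le_mul_of_nonneg_right hBN (by positivity)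
        _ = B.card * (L ^ T * L ^ 2) := by ring
    have h8 : 1 + g / L ≤ 2 * g := by
      have : g / L ≤ g := div_le_self (by linarith) hL1
      linarith
    have h9 : 4 ≤ ε * L := by
      rw [div_le_iff₀ hε] at l2
      linarith
    calc (E.card : ℝ) * (1 + g / L) ≤ B.card / L ^ 2 * (2 * g) := by gcongr
      _ = (B.card * (g / L)) * (2 / L) := by field_simp
      _ ≤ (B.card * (g / L)) * (ε / 2) := by
          apply mul_le_mul_of_nonneg_left _ (by positivity)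
          rw [div_le_iff₀ hL0]
          linarith
      _ = ε / 2 * (B.card * (g / L)) := by ring
  calc (s.card : ℝ) * |∑ n ∈ B, cnt q (dis s y) κ cc n - B.card * (g / L)| ≤ s.card * (ε * (B.card * (g / L))) := by
        apply mul_le_mul_of_nonneg_left _ hs0.le
        linarith
    _ = ε * (g * (B.card * s.card / L)) := by ring

/-- the prime number theorem, uniformly for `N / L^T ≤ m ≤ N` -/
lemma pnt_unif (T : ℕ) (δ : ℝ) (hδ : 0 < δ) : ∀ᶠ N : ℕ in atTop, ∀ m : ℕ, m ≤ N → (N : ℝ) ≤ m * Real.log N ^ T →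
    |((((Icc 1 m).filter Nat.Prime).card : ℕ) : ℝ) - m / Real.log N| ≤ δ * (m / Real.log N) := by
  obtain ⟨δ', hδ'⟩ : ∃ δ' : ℝ, δ' = min δ 1 / 4 := ⟨_, rfl⟩
  have hm : 0 < min δ 1 := lt_min hδ one_pos
  have hδ0 : 0 < δ' := by rw [hδ']; positivity
  have hδ1 : δ' ≤ 1 / 4 := by rw [hδ']; have := min_le_right δ 1; linarith
  have hδ2 : 4 * δ' ≤ δ := by rw [hδ']; have := min_le_left δ 1; linarith
  have h1 := Metric.tendsto_nhds.1 Pool.Agent.Cov.PNT.pi_tendsto δ' hδ0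
  obtain ⟨x₀, hx₀⟩ := eventually_atTop.1 h1
  filter_upwards [ev_log_pow T (max x₀ 2), ev_sub T 0 δ' hδ0, ev_log_ge 1, eventually_ge_atTop 1] with N h2 h3 h4 h5 m hm1 hm2
  obtain ⟨L, hL⟩ : ∃ L, L = Real.log N := ⟨_, rfl⟩
  rw [← hL] at h2 h3 h4 hm2 ⊢
  have hL0 : 0 < L := by linarith
  have hN : (1 : ℝ) ≤ N := by exact_mod_cast h5
  have hLT : 0 < L ^ T := pow_pos hL0 T
  have hmx : max x₀ 2 ≤ (m : ℝ) := by
    have : max x₀ 2 * L ^ T ≤ m * L ^ T := h2.trans hm2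
    exact le_of_mul_le_mul_right this hLT
  have hm3 : (2 : ℝ) ≤ m := (le_max_right _ _).trans hmx
  have hm0 : (0 : ℝ) < m := by linarith
  have h6 := hx₀ m ((le_max_left _ _).trans hmx)
  rw [Nat.floor_natCast, Real.dist_eq] at h6
  have h7 : (Nat.primeCounting m) = ((Icc 1 m).filter Nat.Prime).card := by
    rw [Nat.primeCounting, Nat.primeCounting', Nat.count_eq_card_filter_range]
    congr 1
    ext x
    rw [mem_filter, mem_filter, mem_range, mem_Icc]
    constructor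
    · rintro ⟨a, b⟩
      exact ⟨⟨b.one_lt.le, by omega⟩, b⟩
    · rintro ⟨a, b⟩
      exact ⟨by omega, b⟩
  rw [h7] at h6
  obtain ⟨a, ha⟩ : ∃ a : ℝ, a = ((((Icc 1 m).filter Nat.Prime).card : ℕ) : ℝ) := ⟨_, rfl⟩
  rw [← ha] at h6 ⊢
  have ha0 : 0 ≤ a := by rw [ha]; exact Nat.cast_nonneg _
  have h8 : Real.log m ≤ L := by
    rw [hL]
    exact Real.log_le_log hm0 (by exact_mod_cast hm1)
  have h9 : (1 - δ') * L ≤ Real.log m := by
    have h10 : Real.log N ≤ Real.log (m * L ^ T) := Real.log_le_log (by linarith) hm2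
    rw [Real.log_mul hm0.ne' hLT.ne', Real.log_pow, ← hL] at h10
    linarith
  have h10 := abs_lt.1 h6
  have h11 : a * Real.log m ≤ (1 + δ') * m := by
    have : a * Real.log m / m ≤ 1 + δ' := by linarith [h10.2]
    rwa [div_le_iff₀ hm0] at this
  have h12 : (1 - δ') * m ≤ a * Real.log m := by
    have : 1 - δ' ≤ a * Real.log m / m := by linarith [h10.1]
    rwa [le_div_iff₀ hm0] at this
  have up : a * L ≤ (1 + δ) * m := by
    have h13 : (1 - δ') * (a * L) ≤ (1 - δ') * ((1 + 4 * δ') * m) := by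
      calc (1 - δ') * (a * L) = a * ((1 - δ') * L) := by ring
        _ ≤ a * Real.log m := mul_le_mul_of_nonneg_left h9 ha0
        _ ≤ (1 + δ') * m := h11
        _ ≤ (1 - δ') * (1 + 4 * δ') * m := mul_le_mul_of_nonneg_right (by nlinarith) hm0.le
        _ = (1 - δ') * ((1 + 4 * δ') * m) := by ring
    have h14 := le_of_mul_le_mul_left h13 (by linarith)
    have h15 : 4 * δ' * m ≤ δ * m := mul_le_mul_of_nonneg_right hδ2 hm0.le
    linarith
  have lo : (1 - δ) * m ≤ a * L := by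
    have h13 : a * Real.log m ≤ a * L := mul_le_mul_of_nonneg_left h8 ha0
    have h15 : δ' * m ≤ δ * m := mul_le_mul_of_nonneg_right (by linarith) hm0.le
    linarith
  have haL : a = a * L / L := by field_simp
  rw [abs_le]
  constructor
  · have : (1 - δ) * m / L ≤ a * L / L := div_le_div_of_nonneg_right lo hL0.le
    rw [← haL] at this
    have e : (1 - δ) * m / L = m / L - δ * (m / L) := by ring
    linarith
  · have : a * L / L ≤ (1 + δ) * m / L := div_le_div_of_nonneg_right up hL0.le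
    rw [← haL] at this
    have e : (1 + δ) * m / L = m / L + δ * (m / L) := by ring
    linarith

end Pool.Agent.Run7.h931.MK
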