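import Pool.Agent.Run7.h931.MK.Ev2

/-!
# Project MK: every shift (piece EV), third part: Goldbach form, `t_EV : S_T31 → S_EV`
-/

set_option autoImplicit false

namespace Pool.Agent.Run7.h931.MK

open Finset Filter
open Pool.Agent.Run7.h794.MK
open Pool.Agent.N384.MQ (Flat ev_log_pow ev_log_ge)

/-- the number of the pairs, Goldbach form -/
theorem gold (h31 : S_T31) (T : ℕ) (ε : ℝ) (hε : 0 < ε) : ∃ V C W N₀ : ℕ, ∀ N : ℕ, N₀ ≤ N →
    ∀ (q : ℕ) [NeZero q], (N : ℝ) ^ (1 / 3 : ℝ) * Real.log N ^ C ≤ q → (q : ℝ) * Real.log N ^ W ≤ N →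
    ∀ {ι : Type} (s : Finset ι) (y : ι → ZMod q), s.Nonempty → Flat q (1 / Real.log N ^ V) s y →
    ∀ m : ℕ, m ≤ N → ∀ A : Finset ℕ, (∀ a ∈ A, a < m) → (N : ℝ) ≤ A.card * Real.log N ^ T →
    |(((A ×ˢ s).filter fun g => ((m : ℤ) - g.1 - ((y g.2).val : ℤ)).toNat.Prime).card : ℝ) -
      A.card * s.card / Real.log N| ≤ ε * (A.card * s.card / Real.log N) := by
  classical
  obtain ⟨V, C, W, N₀, h⟩ := pairs h31 T ε hε
  obtain ⟨N₁, hev⟩ := eventually_atTop.1 (ev_log_ge 1)
  refine ⟨V, C, W, max N₀ N₁, fun N hN q _ hq1 hq2 ι s y hs hf m hm A hA hAN => ?_⟩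
  have l1 := hev N (le_trans (le_max_right _ _) hN)
  have hinj : Set.InjOn (fun a : ℕ => m - a) A := by
    intro a ha b hb hab
    have := hA a ha
    have := hA b hb
    simp only at hab
    omega
  have hcard : (A.image fun a => m - a).card = A.card := card_image_of_injOn hinj
  have h1 := h N (le_trans (le_max_left _ _) hN) q hq1 hq2 s y hs hf (-1) (by norm_num)
    (by rw [Int.natAbs_neg, Int.natAbs_one, Nat.cast_one]; exact one_le_pow₀ l1) 0
    (by rw [Int.cast_zero, abs_zero]; positivity) (A.image fun a => m - a) (fun n hn => by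
      rw [mem_image] at hn
      obtain ⟨a, ha, rfl⟩ := hn
      have := hA a ha
      refine ⟨by omega, by omega, by omega, ?_⟩
      exact isCoprime_one_right.neg_right) (by rw [hcard]; exact hAN)
  rw [hcard] at h1
  have e1 : (((-1 : ℤ).natAbs : ℕ) : ℝ) / (Nat.totient (-1 : ℤ).natAbs : ℝ) = 1 := by
    rw [Int.natAbs_neg, Int.natAbs_one, Nat.totient_one]
    norm_num
  rw [e1, one_mul] at h1
  have h2 : (((A.image fun a => m - a) ×ˢ s).filter fun g => ((g.1 : ℤ) + (0 + -1 * ((y g.2).val : ℕ))).toNat.Prime).card =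
      ((A ×ˢ s).filter fun g => ((m : ℤ) - g.1 - ((y g.2).val : ℤ)).toNat.Prime).card := by
    symm
    apply card_bij (fun g _ => (m - g.1, g.2))
    · intro g hg
      rw [mem_filter, mem_product] at hg
      rw [mem_filter, mem_product]
      refine ⟨⟨mem_image_of_mem _ hg.1.1, hg.1.2⟩, ?_⟩
      have h3 := hA _ hg.1.1
      have h4 : (((m - g.1 : ℕ) : ℤ) + (0 + -1 * ((y g.2).val : ℕ))) = (m : ℤ) - g.1 - ((y g.2).val : ℤ) := by omega
      rw [h4]
      exact hg.2
    · intro a ha b hb hab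
      rw [mem_filter, mem_product] at ha hb
      have h3 := hA _ ha.1.1
      have h4 := hA _ hb.1.1
      rw [Prod.mk.injEq] at hab
      exact Prod.ext (by omega) hab.2
    · intro g hg
      rw [mem_filter, mem_product, mem_image] at hg
      obtain ⟨⟨⟨a, ha, ha2⟩, hg2⟩, hg3⟩ := hg
      have h3 := hA _ ha
      refine ⟨(a, g.2), ?_, Prod.ext ha2 rfl⟩
      rw [mem_filter, mem_product]
      refine ⟨⟨ha, hg2⟩, ?_⟩
      have h4 : (m : ℤ) - a - ((y g.2).val : ℤ) = ((g.1 : ℤ) + (0 + -1 * ((y g.2).val : ℕ))) := by omega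
      rw [h4]
      exact hg3
  rw [h2] at h1
  exact h1

/-- from the number of the primes to the number of the pairs -/
lemma combine (a c S M L ε : ℝ) (hS : 0 ≤ S) (hL : 0 < L) (hM : 0 ≤ M) (hε : 0 < ε) (hε1 : ε ≤ 1)
    (h1 : |a - M / L| ≤ ε / 4 * (M / L)) (h2 : |c - a * S / L| ≤ ε / 4 * (a * S / L)) :
    |c - S * (M / L ^ 2)| ≤ ε * (S * (M / L ^ 2)) := by
  have h3 : |a * S / L - S * (M / L ^ 2)| ≤ ε / 4 * (S * (M / L ^ 2)) := by
    have e : a * S / L - S * (M / L ^ 2) = (a - M / L) * (S / L) := by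
      field_simp
    rw [e, abs_mul, abs_of_nonneg (by positivity : (0 : ℝ) ≤ S / L)]
    calc |a - M / L| * (S / L) ≤ ε / 4 * (M / L) * (S / L) := mul_le_mul_of_nonneg_right h1 (by positivity)
      _ = ε / 4 * (S * (M / L ^ 2)) := by field_simp
  have h4 : 0 ≤ S * (M / L ^ 2) := by positivity
  have h5 := abs_le.1 h3
  have h6 : ε / 4 * (a * S / L) ≤ ε / 2 * (S * (M / L ^ 2)) := by
    have : a * S / L ≤ 2 * (S * (M / L ^ 2)) := by nlinarith
    nlinarith
  have h7 := abs_le.1 h2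
  rw [abs_le]
  constructor <;> nlinarith

theorem t_EV (h31 : S_T31) : S_EV := by
  classical
  intro T U ε hε
  obtain ⟨ε', hε'⟩ : ∃ ε' : ℝ, ε' = min ε 1 := ⟨_, rfl⟩
  have hε0 : 0 < ε' := by rw [hε']; exact lt_min hε one_pos
  have hε1 : ε' ≤ 1 := by rw [hε']; exact min_le_right _ _
  have hε2 : ε' ≤ ε := by rw [hε']; exact min_le_left _ _
  obtain ⟨V, C, W, N₀, h⟩ := pairs h31 (T + 2) (ε' / 4) (by positivity)
  obtain ⟨V', C', W', N₀', h'⟩ := gold h31 (T + 2) (ε' / 8) (by positivity)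
  obtain ⟨N₁, hev⟩ := eventually_atTop.1 ((ev_log_ge 2).and ((pnt_unif T (ε' / 16) (by positivity)).and
    ((ev_log_pow (T + 2) (100 / ε')).and (eventually_ge_atTop 1))))
  refine ⟨max V V', max C C', max W W', max N₀ (max N₀' N₁), fun N hN q _ hq1 hq2 ι s y hs hf => ?_⟩
  obtain ⟨l1, l2, l3, l4⟩ := hev N (le_trans (le_trans (le_max_right _ _) (le_max_right _ _)) hN)
  obtain ⟨L, hL⟩ : ∃ L, L = Real.log N := ⟨_, rfl⟩
  rw [← hL] at hq1 hq2 hf l1 l2 l3 ⊢
  have hL0 : 0 < L := by linarith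
  have hN1 : (1 : ℝ) ≤ N := by exact_mod_cast l4
  have hqC : ∀ C₀ : ℕ, C₀ ≤ max C C' → (N : ℝ) ^ (1 / 3 : ℝ) * L ^ C₀ ≤ q := by
    intro C₀ hC
    refine le_trans ?_ hq1
    exact mul_le_mul_of_nonneg_left (pow_le_pow_right₀ (by linarith) hC) (by positivity)
  have hqW : ∀ W₀ : ℕ, W₀ ≤ max W W' → (q : ℝ) * L ^ W₀ ≤ N := by
    intro W₀ hW
    refine le_trans ?_ hq2
    exact mul_le_mul_of_nonneg_left (pow_le_pow_right₀ (by linarith) hW) (Nat.cast_nonneg q)
  have hfV : ∀ V₀ : ℕ, V₀ ≤ max V V' → Flat q (1 / L ^ V₀) s y := by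
    intro V₀ hV
    apply hf.mono
    exact div_le_div_of_nonneg_left zero_le_one (by positivity) (pow_le_pow_right₀ (by linarith) hV)
  -- the number of the primes
  have hpi : ∀ m : ℕ, m ≤ N → (N : ℝ) ≤ m * L ^ T →
      (N : ℝ) ≤ ((((Icc 1 m).filter Nat.Prime).card : ℝ) - 1) * L ^ (T + 2) ∧ 32 ≤ ε' * (m / L) := by
    intro m hm1 hm2
    have h1 := l2 m hm1 hm2
    have h2 := (abs_le.1 h1).1
    have h0 : 0 < L ^ T := by positivity
    have h3 : 100 * L ^ 2 ≤ ε' * m := by
      have h4 : (100 / ε' * L ^ 2) * L ^ T ≤ m * L ^ T := by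
        calc (100 / ε' * L ^ 2) * L ^ T = 100 / ε' * L ^ (T + 2) := by rw [pow_add]; ring
          _ ≤ N := l3
          _ ≤ m * L ^ T := hm2
      have h5 := le_of_mul_le_mul_right h4 h0
      have h6 : ε' * (100 / ε' * L ^ 2) ≤ ε' * m := mul_le_mul_of_nonneg_left h5 hε0.le
      have h7 : ε' * (100 / ε' * L ^ 2) = 100 * L ^ 2 := by field_simp
      linarith
    have h8 : 100 * L ≤ ε' * (m / L) := by
      rw [mul_div_assoc', le_div_iff₀ hL0]
      nlinarith
    have hm0 : (0 : ℝ) ≤ m := Nat.cast_nonneg m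
    have h9 : 0 ≤ (m : ℝ) / L := by positivity
    have h10 : 100 * L ≤ (m : ℝ) / L := by nlinarith
    constructor
    · have h11 : (m : ℝ) / L / 2 ≤ (((Icc 1 m).filter Nat.Prime).card : ℝ) - 1 := by nlinarith
      calc (N : ℝ) ≤ m * L ^ T := hm2
        _ = (m / L / 2) * (2 * L * L ^ T) := by field_simp
        _ ≤ ((((Icc 1 m).filter Nat.Prime).card : ℝ) - 1) * (2 * L * L ^ T) := by gcongr
        _ ≤ ((((Icc 1 m).filter Nat.Prime).card : ℝ) - 1) * L ^ (T + 2) := by
            apply mul_le_mul_of_nonneg_left _ (by nlinarith)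
            calc 2 * L * L ^ T = L ^ T * (2 * L) := by ring
              _ ≤ L ^ T * L ^ 2 := mul_le_mul_of_nonneg_left (by nlinarith) h0.le
              _ = L ^ (T + 2) := by rw [pow_add]
    · nlinarith
  constructor
  · intro k hk hk0
    have hNT : (N : ℝ) ≤ N * L ^ T := le_mul_of_one_le_right (by linarith) (one_le_pow₀ (by linarith))
    obtain ⟨g1, g2⟩ := hpi N le_rfl hNT
    have h1 := h N (le_trans (le_max_left _ _) hN) q (by rw [← hL]; exact hqC C (le_max_left _ _))
      (by rw [← hL]; exact hqW W (le_max_left _ _)) s y hs (by rw [← hL]; exact hfV V (le_max_left _ _)) 1 one_ne_zero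
      (by rw [Int.natAbs_one, Nat.cast_one, ← hL]; exact one_le_pow₀ (by linarith)) k
      (by
        rw [← hL]
        refine le_trans ?_ (mul_le_mul_of_nonneg_left (pow_le_pow_right₀ (by linarith) (by omega : T ≤ T + 2)) (by linarith))
        exact_mod_cast hk) ((Icc 1 N).filter Nat.Prime) (fun n hn => by
        rw [mem_filter, mem_Icc] at hn
        exact ⟨hn.1.1, hn.1.2, by omega, isCoprime_one_right⟩) (by
        rw [← hL]
        refine g1.trans (mul_le_mul_of_nonneg_right (by linarith) (by positivity)))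
    rw [← hL, Int.natAbs_one, Nat.totient_one, Nat.cast_one, div_one, one_mul] at h1
    have h2 : (((Icc 1 N).filter Nat.Prime ×ˢ s).filter fun g => ((g.1 : ℤ) + (k + 1 * ((y g.2).val : ℕ))).toNat.Prime).card =
        (((Icc 1 N).filter Nat.Prime ×ˢ s).filter fun g => ((g.1 : ℤ) + k + ((y g.2).val : ℤ)).toNat.Prime).card := by
      congr 1
      apply filter_congr
      intro g _
      rw [one_mul, ← add_assoc]
    rw [h2] at h1
    have h3 := combine _ _ (s.card : ℝ) N L ε' (Nat.cast_nonneg _) hL0 (by linarith) hε0 hε1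
      ((l2 N le_rfl hNT).trans (by
        have : 0 ≤ (N : ℝ) / L := by positivity
        nlinarith)) h1
    exact h3.trans (mul_le_mul_of_nonneg_right hε2 (by positivity))
  · intro m hm1 hm2
    obtain ⟨g1, g2⟩ := hpi m hm2 hm1
    obtain ⟨A, hA⟩ : ∃ A : Finset ℕ, A = (Icc 1 m).filter (fun p => p.Prime ∧ p < m) := ⟨_, rfl⟩
    have hAc : ((((Icc 1 m).filter Nat.Prime).card : ℝ) - 1) ≤ A.card ∧ (A.card : ℝ) ≤ ((Icc 1 m).filter Nat.Prime).card := by
      have h3 : (Icc 1 m).filter Nat.Prime ⊆ insert m A := by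
        intro p hp
        rw [mem_filter, mem_Icc] at hp
        rw [mem_insert, hA, mem_filter, mem_Icc]
        by_cases h4 : p = m
        · exact Or.inl h4
        · exact Or.inr ⟨hp.1, hp.2, by omega⟩
      have h5 := (card_le_card h3).trans (card_insert_le _ _)
      have h6 : A ⊆ (Icc 1 m).filter Nat.Prime := by
        intro p hp
        rw [hA, mem_filter] at hp
        exact mem_filter.2 ⟨hp.1, hp.2.1⟩
      constructor
      · have : ((((Icc 1 m).filter Nat.Prime).card : ℕ) : ℝ) ≤ A.card + 1 := by exact_mod_cast h5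
        linarith
      · exact_mod_cast card_le_card h6
    have h1 := h' N (le_trans (le_trans (le_max_left _ _) (le_max_right _ _)) hN) q (by rw [← hL]; exact hqC C' (le_max_right _ _))
      (by rw [← hL]; exact hqW W' (le_max_right _ _)) s y hs (by rw [← hL]; exact hfV V' (le_max_right _ _)) m hm2 A
      (fun a ha => by
        rw [hA, mem_filter] at ha
        exact ha.2.2) (by
        rw [← hL]
        exact g1.trans (mul_le_mul_of_nonneg_right hAc.1 (by positivity)))
    rw [← hL] at h1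
    have h2 : ((A ×ˢ s).filter fun g => ((m : ℤ) - g.1 - ((y g.2).val : ℤ)).toNat.Prime).card =
        ((((Icc 1 m).filter Nat.Prime) ×ˢ s).filter fun g => ((m : ℤ) - g.1 - ((y g.2).val : ℤ)).toNat.Prime).card := by
      congr 1
      ext g
      rw [mem_filter, mem_filter, mem_product, mem_product, hA, mem_filter, mem_filter]
      constructor
      · rintro ⟨⟨⟨a1, a2, _⟩, a3⟩, a4⟩
        exact ⟨⟨⟨a1, a2⟩, a3⟩, a4⟩
      · rintro ⟨⟨⟨a1, a2⟩, a3⟩, a4⟩
        refine ⟨⟨⟨a1, a2, ?_⟩, a3⟩, a4⟩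
        by_contra h5
        have h6 : ((m : ℤ) - g.1 - ((y g.2).val : ℤ)).toNat = 0 := by omega
        rw [h6] at a4
        exact Nat.not_prime_zero a4
    rw [h2] at h1
    have h4 := l2 m hm2 hm1
    have hmL : 0 ≤ (m : ℝ) / L := by positivity
    have h5 : |(A.card : ℝ) - m / L| ≤ ε' / 8 * (m / L) := by
      rw [abs_le] at h4 ⊢
      constructor
      · nlinarith [hAc.1, h4.1]
      · nlinarith [hAc.2, h4.2]
    have h3 := combine _ _ (s.card : ℝ) m L ε' (Nat.cast_nonneg _) hL0 (Nat.cast_nonneg _) hε0 hε1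
      (h5.trans (by nlinarith)) (h1.trans (by
        have : 0 ≤ (A.card : ℝ) * s.card / L := by positivity
        nlinarith))
    exact h3.trans (mul_le_mul_of_nonneg_right hε2 (by positivity))

end Pool.Agent.Run7.h931.MK
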