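import Pool.Agent.Run7.h931.MK.Ev3
import Pool.Agent.N384.MQ.Quot

/-!
# Project MK: every shift, fourth part: the Goldbach-Knjzek form; almost all primes; examples of flat families
-/

set_option autoImplicit false

namespace Pool.Agent.Run7.h931.MK

open Finset Filter
open Pool.Agent.Run7.h794.MK
open Pool.Agent.N384.MQ (Flat dis ev_log_pow ev_log_ge)

/-- almost all integers -/
theorem almost (h31 : S_T31) (T U : ℕ) (ε : ℝ) (hε : 0 < ε) : ∃ V C W N₀ : ℕ, ∀ N : ℕ, N₀ ≤ N →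
    ∀ (q : ℕ) [NeZero q], (N : ℝ) ^ (1 / 3 : ℝ) * Real.log N ^ C ≤ q → (q : ℝ) * Real.log N ^ W ≤ N →
    ∀ {ι : Type} (s : Finset ι) (y : ι → ZMod q), s.Nonempty → Flat q (1 / Real.log N ^ V) s y →
    ∀ κ : ℤ, κ ≠ 0 → (κ.natAbs : ℝ) ≤ Real.log N ^ T → ∀ cc : ℤ, |(cc : ℝ)| ≤ N * Real.log N ^ T →
    ∃ E : Finset ℕ, (E.card : ℝ) ≤ N / Real.log N ^ U ∧ ∀ n : ℕ, 1 ≤ n → n ≤ N → n ∉ E → 0 < (n : ℤ) + cc →
      IsCoprime ((n : ℤ) + cc) κ →
      |((s.filter fun i => ((n : ℤ) + cc + κ * ((y i).val : ℤ)).toNat.Prime).card : ℝ) -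
        κ.natAbs / (Nat.totient κ.natAbs : ℝ) * (s.card / Real.log N)| ≤
        ε * (κ.natAbs / (Nat.totient κ.natAbs : ℝ) * (s.card / Real.log N)) := by
  classical
  obtain ⟨V, C, W, N₀, h⟩ := aa h31 T U ε hε
  obtain ⟨N₁, hev⟩ := eventually_atTop.1 (ev_log_ge 1)
  refine ⟨V, C, W, max N₀ N₁, fun N hN q _ hq1 hq2 ι s y hs hf κ hκ hκT cc hcc => ?_⟩
  have l1 := hev N (le_trans (le_max_right _ _) hN)
  have hq3 : q ≤ N := by
    have h2 : (q : ℝ) ≤ q * Real.log N ^ W := le_mul_of_one_le_right (Nat.cast_nonneg q) (one_le_pow₀ l1)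
    exact_mod_cast h2.trans hq2
  have hM := msh_dis V C N q hq1 hq3 s y hs hf
  obtain ⟨E, hE1, hE2⟩ := h N (le_trans (le_max_left _ _) hN) q (dis s y) hM hq2 κ hκ hκT cc hcc
  refine ⟨E, hE1, fun n hn1 hn2 hnE hpos hcop => ?_⟩
  have h1 := hE2 n hn1 hn2 hnE hpos hcop
  have h2 := cnt_dis s y hs κ cc n
  have hs0 : (0 : ℝ) < s.card := by exact_mod_cast hs.card_pos
  have h3 : (s.filter fun i => ((n : ℤ) + (cc + κ * ((y i).val : ℕ))).toNat.Prime) =
      s.filter fun i => ((n : ℤ) + cc + κ * ((y i).val : ℤ)).toNat.Prime := by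
    apply filter_congr
    intro i _
    rw [add_assoc]
  rw [h3] at h2
  rw [← h2]
  obtain ⟨g, hg⟩ : ∃ g : ℝ, g = κ.natAbs / (Nat.totient κ.natAbs : ℝ) := ⟨_, rfl⟩
  rw [← hg] at h1 ⊢
  have h4 : (s.card : ℝ) * cnt q (dis s y) κ cc n - g * (s.card / Real.log N) =
      s.card * (cnt q (dis s y) κ cc n - g / Real.log N) := by ring
  rw [h4, abs_mul, abs_of_pos hs0]
  calc (s.card : ℝ) * |cnt q (dis s y) κ cc n - g / Real.log N| ≤ s.card * (ε * (g / Real.log N)) :=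
        mul_le_mul_of_nonneg_left h1 hs0.le
    _ = ε * (g * (s.card / Real.log N)) := by ring

/-- explicit flat families with a polylogarithmic number of members -/
theorem examples (V : ℕ) : ∃ K N₀ : ℕ, ∀ N : ℕ, N₀ ≤ N → ∀ (q : ℕ) [Fact q.Prime], (N : ℝ) ^ (1 / 3 : ℝ) ≤ q → q ≤ N →
    ∃ R : ℕ, 2 ≤ R ∧ (R : ℝ) ≤ Real.log N ^ K ∧
      Flat q (1 / Real.log N ^ V) (((Icc 1 R).filter Nat.Prime) ×ˢ range (R ^ 2))
        (fun z => ((z.2 : ℕ) : ZMod q) * ((z.1 : ℕ) : ZMod q)⁻¹) := by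
  obtain ⟨P₀, hP⟩ := Pool.Agent.N384.MQ.flat_quot (V + 1)
  obtain ⟨N₁, hev⟩ := eventually_atTop.1 ((ev_log_ge (2 + 3 ^ (V + 1))).and
    ((ev_log_pow (3 * (V + 6)) 1).and ((eventually_ge_atTop 2).and (eventually_ge_atTop (P₀ ^ 3 + 1)))))
  refine ⟨V + 6, N₁, fun N hN q _ hq1 hq2 => ?_⟩
  obtain ⟨l1, l2, l3, l4⟩ := hev N hN
  obtain ⟨L, hL⟩ : ∃ L, L = Real.log N := ⟨_, rfl⟩
  rw [← hL] at l1 l2 ⊢
  have h3 : (0 : ℝ) < 3 ^ (V + 1) := by positivity
  have hL2 : 2 ≤ L := by linarith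
  have hN1 : (1 : ℝ) ≤ N := by exact_mod_cast (by omega : 1 ≤ N)
  have hN0 : (0 : ℝ) < N := by linarith
  have hq0 : (0 : ℝ) < q := lt_of_lt_of_le (Real.rpow_pos_of_pos hN0 _) hq1
  have hq3 : (N : ℝ) ≤ (q : ℝ) ^ 3 := by
    calc (N : ℝ) = ((N : ℝ) ^ (1 / 3 : ℝ)) ^ 3 := by
          rw [← Real.rpow_natCast, ← Real.rpow_mul hN0.le]
          norm_num
      _ ≤ (q : ℝ) ^ 3 := pow_le_pow_left₀ (Real.rpow_nonneg hN0.le _) hq1 3
  have hqP : P₀ ≤ q := by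
    have h4 : N ≤ q ^ 3 := by exact_mod_cast hq3
    by_contra h5
    have h6 : q ^ 3 ≤ P₀ ^ 3 := Nat.pow_le_pow_left (by omega) 3
    omega
  have hlq1 : Real.log q ≤ L := by
    rw [hL]
    exact Real.log_le_log hq0 (by exact_mod_cast hq2)
  have hlq2 : L ≤ 3 * Real.log q := by
    rw [hL]
    have := Real.log_le_log hN0 hq3
    rw [Real.log_pow] at this
    exact_mod_cast this
  have hlq0 : 0 < Real.log q := by linarith
  obtain ⟨R, hR⟩ : ∃ R : ℕ, R = ⌈L ^ (V + 5)⌉₊ := ⟨_, rfl⟩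
  have hR1 : L ^ (V + 5) ≤ R := by rw [hR]; exact Nat.le_ceil _
  have hR2 : (R : ℝ) ≤ L ^ (V + 6) := by
    have h4 : (R : ℝ) ≤ L ^ (V + 5) + 1 := by
      rw [hR]
      exact (Nat.ceil_lt_add_one (by positivity)).le
    have h5 : 1 ≤ L ^ (V + 5) := one_le_pow₀ (by linarith)
    calc (R : ℝ) ≤ L ^ (V + 5) + 1 := h4
      _ ≤ L ^ (V + 5) * L := by nlinarith
      _ = L ^ (V + 6) := by rw [← pow_succ]
  have hRq : R < q := by
    have h4 : (R : ℝ) ^ 3 < (q : ℝ) ^ 3 := by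
      rcases eq_or_lt_of_le hq3 with h6 | h6
      · -- a cube of a prime is impossible to compare strictly here, use the strict bound for `R`
        have h7 : (R : ℝ) < L ^ (V + 6) := by
          have h4 : (R : ℝ) < L ^ (V + 5) + 1 := by
            rw [hR]
            exact Nat.ceil_lt_add_one (by positivity)
          have h5 : 1 ≤ L ^ (V + 5) := one_le_pow₀ (by linarith)
          calc (R : ℝ) < L ^ (V + 5) + 1 := h4
            _ ≤ L ^ (V + 5) * L := by nlinarith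
            _ = L ^ (V + 6) := by rw [← pow_succ]
        calc (R : ℝ) ^ 3 < (L ^ (V + 6)) ^ 3 := pow_lt_pow_left₀ h7 (Nat.cast_nonneg _) (by norm_num)
          _ = 1 * L ^ (3 * (V + 6)) := by rw [← pow_mul, one_mul, mul_comm 3]
          _ ≤ N := l2
          _ ≤ (q : ℝ) ^ 3 := hq3
      · calc (R : ℝ) ^ 3 ≤ (L ^ (V + 6)) ^ 3 := pow_le_pow_left₀ (Nat.cast_nonneg _) hR2 3
          _ = 1 * L ^ (3 * (V + 6)) := by rw [← pow_mul, one_mul, mul_comm 3]
          _ ≤ N := l2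
          _ < (q : ℝ) ^ 3 := h6
    exact_mod_cast lt_of_pow_lt_pow_left₀ 3 (Nat.cast_nonneg _) h4
  have hR3 : 2 ≤ R := by
    have h5 : (2 : ℝ) ≤ R := by
      calc (2 : ℝ) ≤ L := hL2
        _ = L ^ 1 := by rw [pow_one]
        _ ≤ L ^ (V + 5) := pow_le_pow_right₀ (by linarith) (by omega)
        _ ≤ R := hR1
    exact_mod_cast h5
  refine ⟨R, hR3, hR2, ?_⟩
  have h8 := hP q hqP R (R ^ 2) (by
    refine le_trans ?_ hR1
    exact pow_le_pow_left₀ hlq0.le hlq1 _) hRq le_rfl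
  apply h8.mono
  rw [div_le_div_iff₀ (by positivity) (by positivity), one_mul, one_mul]
  calc L ^ V = L ^ V * 1 := by ring
    _ ≤ L ^ V * (L / 3 ^ (V + 1)) := by
        apply mul_le_mul_of_nonneg_left _ (by positivity)
        rw [le_div_iff₀ h3]
        linarith
    _ = (L / 3) ^ (V + 1) := by rw [div_pow, pow_succ L V]; ring
    _ ≤ Real.log q ^ (V + 1) := pow_le_pow_left₀ (by positivity) (by linarith) _

/-- the number of the pairs `(p, i)` for which `m - y_i = p + p'` is a partition with `√(m - y_i) < p ≤ p'` -/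
noncomputable def knj {ι : Type} (q : ℕ) (s : Finset ι) (y : ι → ZMod q) (P : Finset ℕ) (m : ℕ) : ℕ :=
  open Classical in
  ((P ×ˢ s).filter fun g => g.1.Prime ∧ (m - (y g.2).val - g.1).Prime ∧
    √((m - (y g.2).val : ℕ) : ℝ) < g.1 ∧ 2 * g.1 ≤ m - (y g.2).val).card

/-- arbitrary sets of primes between `√m` and `(m - q) / 2` -/
theorem knj_set (h31 : S_T31) (T : ℕ) (ε : ℝ) (hε : 0 < ε) : ∃ V C W N₀ : ℕ, ∀ N : ℕ, N₀ ≤ N →
    ∀ (q : ℕ) [NeZero q], (N : ℝ) ^ (1 / 3 : ℝ) * Real.log N ^ C ≤ q → (q : ℝ) * Real.log N ^ W ≤ N →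
    ∀ {ι : Type} (s : Finset ι) (y : ι → ZMod q), s.Nonempty → Flat q (1 / Real.log N ^ V) s y →
    ∀ m : ℕ, m ≤ N → ∀ P : Finset ℕ, (∀ p ∈ P, p.Prime ∧ √(m : ℝ) < p ∧ 2 * p + q ≤ m) →
      (N : ℝ) ≤ P.card * Real.log N ^ T →
    |(knj q s y P m : ℝ) - P.card * s.card / Real.log N| ≤ ε * (P.card * s.card / Real.log N) := by
  classical
  obtain ⟨V, C, W, N₀, h⟩ := gold h31 T ε hε
  refine ⟨V, C, W, N₀, fun N hN q _ hq1 hq2 ι s y hs hf m hm P hP hPN => ?_⟩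
  have h1 := h N hN q hq1 hq2 s y hs hf m hm P (fun p hp => by
    have := hP p hp
    have := this.1.pos
    omega) hPN
  have h2 : ((P ×ˢ s).filter fun g => ((m : ℤ) - g.1 - ((y g.2).val : ℤ)).toNat.Prime).card = knj q s y P m := by
    unfold knj
    congr 1
    ext g
    rw [mem_filter, mem_filter, mem_product]
    constructor
    · rintro ⟨⟨a1, a2⟩, a3⟩
      obtain ⟨b1, b2, b3⟩ := hP _ a1
      have h4 := ZMod.val_lt (y g.2)
      refine ⟨⟨a1, a2⟩, b1, ?_, ?_, by omega⟩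
      · have h5 : m - (y g.2).val - g.1 = ((m : ℤ) - g.1 - ((y g.2).val : ℤ)).toNat := by omega
        rw [h5]
        exact a3
      · refine lt_of_le_of_lt (Real.sqrt_le_sqrt ?_) b2
        exact_mod_cast Nat.sub_le _ _
    · rintro ⟨⟨a1, a2⟩, _, a3, _, _⟩
      refine ⟨⟨a1, a2⟩, ?_⟩
      obtain ⟨b1, b2, b3⟩ := hP _ a1
      have h4 := ZMod.val_lt (y g.2)
      have h5 : m - (y g.2).val - g.1 = ((m : ℤ) - g.1 - ((y g.2).val : ℤ)).toNat := by omega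
      rw [← h5]
      exact a3
  rw [h2] at h1
  exact h1

/-- all partitions -/
theorem knj_all (h31 : S_T31) (T : ℕ) (ε : ℝ) (hε : 0 < ε) : ∃ V C W N₀ : ℕ, ∀ N : ℕ, N₀ ≤ N →
    ∀ (q : ℕ) [NeZero q], (N : ℝ) ^ (1 / 3 : ℝ) * Real.log N ^ C ≤ q → (q : ℝ) * Real.log N ^ W ≤ N →
    ∀ {ι : Type} (s : Finset ι) (y : ι → ZMod q), s.Nonempty → Flat q (1 / Real.log N ^ V) s y →
    ∀ m : ℕ, m ≤ N → (N : ℝ) ≤ m * Real.log N ^ T →
    |(knj q s y (Icc 1 m) m : ℝ) - s.card * (m / 2 / Real.log N ^ 2)| ≤ ε * (s.card * (m / 2 / Real.log N ^ 2)) := by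
  classical
  obtain ⟨ε', hε'⟩ : ∃ ε' : ℝ, ε' = min ε 1 / 2 := ⟨_, rfl⟩
  have hm1 : 0 < min ε 1 := lt_min hε one_pos
  have hε0 : 0 < ε' := by rw [hε']; positivity
  have hε1 : ε' ≤ 1 / 2 := by rw [hε']; have := min_le_right ε 1; linarith
  have hε2 : 2 * ε' ≤ ε := by rw [hε']; have := min_le_left ε 1; linarith
  obtain ⟨V, C, W, N₀, h⟩ := knj_set h31 (T + 3) (ε' / 4) (by positivity)
  obtain ⟨N₁, hev⟩ := eventually_atTop.1 ((ev_log_ge 4).and ((pnt_unif (T + 1) (ε' / 16) (by positivity)).and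
    ((ev_log_pow (T + 6) ((1000 / ε') ^ 2)).and ((eventually_ge_atTop 1).and (ev_log_ge (100 / ε'))))))
  refine ⟨V, C, max W (T + 4), max N₀ N₁, fun N hN q _ hq1 hq2 ι s y hs hf m hm hmN => ?_⟩
  obtain ⟨l1, l2, l3, l4, l5⟩ := hev N (le_trans (le_max_right _ _) hN)
  have hq2' : (q : ℝ) * Real.log N ^ W ≤ N := by
    refine le_trans ?_ hq2
    exact mul_le_mul_of_nonneg_left (pow_le_pow_right₀ (by linarith) (le_max_left _ _)) (Nat.cast_nonneg q)
  have hq3 : (q : ℝ) * Real.log N ^ (T + 4) ≤ N := by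
    refine le_trans ?_ hq2
    exact mul_le_mul_of_nonneg_left (pow_le_pow_right₀ (by linarith) (le_max_right _ _)) (Nat.cast_nonneg q)
  have hh := h N (le_trans (le_max_left _ _) hN) q hq1 hq2' s y hs hf m hm
  obtain ⟨L, hL⟩ : ∃ L, L = Real.log N := ⟨_, rfl⟩
  rw [← hL] at hq3 hmN hh l1 l2 l3 l5 ⊢
  have hL0 : 0 < L := by linarith
  have hLT : 0 < L ^ T := pow_pos hL0 T
  have hN1 : (1 : ℝ) ≤ N := by exact_mod_cast l4
  have hm0 : (0 : ℝ) ≤ m := Nat.cast_nonneg m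
  -- the sizes
  have hqm : (q : ℝ) * L ^ 4 ≤ m := by
    have : (q * L ^ 4) * L ^ T ≤ m * L ^ T := by
      calc (q * L ^ 4) * L ^ T = q * L ^ (T + 4) := by rw [pow_add]; ring
        _ ≤ (N : ℝ) := hq3
        _ ≤ (m : ℝ) * L ^ T := hmN
    exact le_of_mul_le_mul_right this hLT
  have hbig : (1000 / ε') ^ 2 * L ^ 6 ≤ (m : ℝ) := by
    have : ((1000 / ε') ^ 2 * L ^ 6) * L ^ T ≤ (m : ℝ) * L ^ T := by
      calc ((1000 / ε') ^ 2 * L ^ 6) * L ^ T = (1000 / ε') ^ 2 * L ^ (T + 6) := by rw [pow_add]; ring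
        _ ≤ (N : ℝ) := l3
        _ ≤ (m : ℝ) * L ^ T := hmN
    exact le_of_mul_le_mul_right this hLT
  obtain ⟨S, hS⟩ : ∃ S : ℝ, S = √(m : ℝ) := ⟨_, rfl⟩
  have hS2 : S * S = m := by rw [hS]; exact Real.mul_self_sqrt hm0
  have hS0 : 0 ≤ S := by rw [hS]; exact Real.sqrt_nonneg _
  have hSb : 1000 / ε' * L ^ 3 ≤ S := by
    rw [hS]
    apply Real.le_sqrt_of_sq_le
    calc (1000 / ε' * L ^ 3) ^ 2 = (1000 / ε') ^ 2 * L ^ 6 := by ring
      _ ≤ (m : ℝ) := hbig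
  have hSm : 1000 * L ^ 3 * S ≤ ε' * (m : ℝ) := by
    have h3 : 1000 * L ^ 3 ≤ ε' * S := by
      have h4 : ε' * (1000 / ε' * L ^ 3) ≤ ε' * S := mul_le_mul_of_nonneg_left hSb hε0.le
      have h5 : ε' * (1000 / ε' * L ^ 3) = 1000 * L ^ 3 := by field_simp
      linarith
    calc 1000 * L ^ 3 * S ≤ ε' * S * S := mul_le_mul_of_nonneg_right h3 hS0
      _ = ε' * (m : ℝ) := by rw [mul_assoc, hS2]
  have h100 : 100 ≤ ε' * L := by
    rw [div_le_iff₀ hε0] at l5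
    linarith
  have hS1 : 1 ≤ S := by
    have : (1 : ℝ) ≤ 1000 / ε' * L ^ 3 := by
      have h3 : (1 : ℝ) ≤ 1000 / ε' := by rw [le_div_iff₀ hε0]; linarith
      have h4 : (1 : ℝ) ≤ L ^ 3 := one_le_pow₀ (by linarith)
      nlinarith
    linarith
  obtain ⟨Q, hQ⟩ : ∃ Q : ℝ, Q = m / L ^ 3 := ⟨_, rfl⟩
  have hQm : (m : ℝ) = Q * L ^ 3 := by rw [hQ]; field_simp
  have hQ0 : 0 ≤ Q := by rw [hQ]; positivity
  have hL3 : (0 : ℝ) < L ^ 3 := by positivity
  have hSQ : 1000 * S ≤ ε' * Q := by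
    rw [hQm] at hSm
    have : (1000 * S) * L ^ 3 ≤ (ε' * Q) * L ^ 3 := by linarith
    exact le_of_mul_le_mul_right this hL3
  have hqQ : 100 * (q : ℝ) ≤ ε' * Q := by
    rw [hQm] at hqm
    have h3 : (q : ℝ) * L ≤ Q := by
      have : (q * L) * L ^ 3 ≤ Q * L ^ 3 := by
        calc (q * L) * L ^ 3 = q * L ^ 4 := by ring
          _ ≤ Q * L ^ 3 := hqm
      exact le_of_mul_le_mul_right this hL3
    calc 100 * (q : ℝ) ≤ (ε' * L) * q := mul_le_mul_of_nonneg_right h100 (Nat.cast_nonneg q)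
      _ = ε' * (q * L) := by ring
      _ ≤ ε' * Q := mul_le_mul_of_nonneg_left h3 hε0.le
  have hQm2 : Q ≤ m := by
    rw [hQ]
    exact div_le_self hm0 (one_le_pow₀ (by linarith))
  -- the natural number `m' = (m - q) / 2`
  obtain ⟨m', hm'⟩ : ∃ m' : ℕ, m' = (m - q) / 2 := ⟨_, rfl⟩
  have hqm' : q ≤ m := by
    have : (q : ℝ) ≤ m := by nlinarith
    exact_mod_cast this
  have hm'1 : 2 * (m' : ℝ) ≤ m - q := by
    have : 2 * m' ≤ m - q := by omega
    have h3 : ((2 * m' : ℕ) : ℝ) ≤ ((m - q : ℕ) : ℝ) := by exact_mod_cast this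
    rw [Nat.cast_sub hqm'] at h3
    push_cast at h3
    exact h3
  have hm'2 : (m : ℝ) - q - 1 ≤ 2 * m' := by
    have : m - q ≤ 2 * m' + 1 := by omega
    have h3 : ((m - q : ℕ) : ℝ) ≤ ((2 * m' + 1 : ℕ) : ℝ) := by exact_mod_cast this
    rw [Nat.cast_sub hqm'] at h3
    push_cast at h3
    linarith
  have hm4 : (m : ℝ) / 4 ≤ m' := by nlinarith
  have hm'N : (N : ℝ) ≤ m' * L ^ (T + 1) := by
    calc (N : ℝ) ≤ m * L ^ T := hmN
      _ ≤ (4 * m') * L ^ T := mul_le_mul_of_nonneg_right (by linarith) hLT.le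
      _ ≤ (L * m') * L ^ T := by gcongr
      _ = m' * L ^ (T + 1) := by rw [pow_succ]; ring
  have hp1 := l2 m' (by omega) hm'N
  -- the set of primes
  obtain ⟨P, hP⟩ : ∃ P : Finset ℕ, P = (Icc 1 m').filter (fun p : ℕ => p.Prime ∧ √(m : ℝ) < p) := ⟨_, rfl⟩
  have hPc1 : (P.card : ℝ) ≤ ((Icc 1 m').filter Nat.Prime).card := by
    have h6 : P ⊆ (Icc 1 m').filter Nat.Prime := by
      intro p hp
      rw [hP, mem_filter] at hp
      exact mem_filter.2 ⟨hp.1, hp.2.1⟩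
    exact_mod_cast card_le_card h6
  have hPc2 : (((Icc 1 m').filter Nat.Prime).card : ℝ) ≤ P.card + S := by
    have h6 : (Icc 1 m').filter Nat.Prime ⊆ P ∪ Icc 1 ⌊S⌋₊ := by
      intro p hp
      rw [mem_filter, mem_Icc] at hp
      rw [mem_union, hP, mem_filter, mem_Icc, mem_Icc]
      by_cases h4 : √(m : ℝ) < p
      · exact Or.inl ⟨hp.1, hp.2, h4⟩
      · right
        refine ⟨hp.1.1, Nat.le_floor ?_⟩
        rw [hS]
        exact not_lt.1 h4
    have h7 := (card_le_card h6).trans (card_union_le _ _)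
    rw [Nat.card_Icc, Nat.add_sub_cancel] at h7
    have h8 : (((Icc 1 m').filter Nat.Prime).card : ℝ) ≤ P.card + (⌊S⌋₊ : ℝ) := by exact_mod_cast h7
    have := Nat.floor_le hS0
    linarith
  have hLL : (m : ℝ) / L = Q * L ^ 2 := by rw [hQ]; field_simp
  have hL2 : 16 ≤ L ^ 2 := by nlinarith
  have hPL : |(P.card : ℝ) - m / 2 / L| ≤ ε' / 4 * (m / 2 / L) := by
    have h3 := abs_le.1 hp1
    have h4 : (m' : ℝ) / L ≤ m / 2 / L := div_le_div_of_nonneg_right (by linarith [Nat.cast_nonneg (α := ℝ) q]) hL0.le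
    have h5 : m / 2 / L - (q + 1) / L ≤ (m' : ℝ) / L := by
      rw [← sub_div]
      exact div_le_div_of_nonneg_right (by linarith) hL0.le
    have h6 : ((q : ℝ) + 1) / L ≤ q + 1 := div_le_self (by positivity) (by linarith)
    have h7 : (m : ℝ) / 2 / L = Q * L ^ 2 / 2 := by rw [← hLL]; ring
    rw [h7] at h4 h5 ⊢
    have h8 : ε' * Q * 16 ≤ ε' * Q * L ^ 2 := mul_le_mul_of_nonneg_left hL2 (by positivity)
    have h9 : 0 ≤ (m' : ℝ) / L := by positivity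
    have h10 : ε' / 16 * ((m' : ℝ) / L) ≤ ε' / 16 * (Q * L ^ 2 / 2) := mul_le_mul_of_nonneg_left h4 (by positivity)
    rw [abs_le]
    constructor
    · nlinarith [h3.1]
    · nlinarith [h3.2]
  have hPN : (N : ℝ) ≤ P.card * L ^ (T + 3) := by
    have h3 := (abs_le.1 hPL).1
    have h4 : (m : ℝ) / 4 / L ≤ P.card := by
      have h5 : 0 ≤ (m : ℝ) / 2 / L := by positivity
      have h6 : (m : ℝ) / 4 / L = m / 2 / L / 2 := by ring
      rw [h6]
      nlinarith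
    calc (N : ℝ) ≤ m * L ^ T := hmN
      _ = (m / 4 / L) * (4 * L * L ^ T) := by field_simp
      _ ≤ P.card * (4 * L * L ^ T) := by gcongr
      _ ≤ P.card * L ^ (T + 3) := by
          apply mul_le_mul_of_nonneg_left _ (Nat.cast_nonneg _)
          calc 4 * L * L ^ T ≤ (L ^ 2 * L) * L ^ T := by gcongr; nlinarith
            _ = L ^ (T + 3) := by ring
  have hk := hh P (fun p hp => by
    rw [hP, mem_filter, mem_Icc] at hp
    exact ⟨hp.2.1, hp.2.2, by omega⟩) hPN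
  have hc := combine (P.card : ℝ) (knj q s y P m : ℝ) (s.card : ℝ) (m / 2) L ε' (Nat.cast_nonneg _) hL0 (by positivity) hε0
    (by linarith) hPL hk
  -- comparison
  have hle : (knj q s y P m : ℝ) ≤ knj q s y (Icc 1 m) m := by
    have : knj q s y P m ≤ knj q s y (Icc 1 m) m := by
      unfold knj
      apply card_le_card
      intro g hg
      rw [mem_filter, mem_product] at hg ⊢
      refine ⟨⟨?_, hg.1.2⟩, hg.2⟩
      have h3 := hg.1.1
      rw [hP, mem_filter, mem_Icc] at h3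
      rw [mem_Icc]
      omega
    exact_mod_cast this
  have hge : (knj q s y (Icc 1 m) m : ℝ) ≤ knj q s y P m + (S + (q + 2)) * s.card := by
    have h3 : knj q s y (Icc 1 m) m ≤ knj q s y P m + ((Icc 1 ⌊S⌋₊ ∪ Ioc m' (m' + q + 1)) ×ˢ s).card := by
      unfold knj
      refine le_trans (card_le_card ?_) (card_union_le _ _)
      intro g hg
      rw [mem_filter, mem_product, mem_Icc] at hg
      rw [mem_union, mem_filter, mem_product, mem_product, mem_union, mem_Icc, mem_Ioc]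
      obtain ⟨⟨⟨a1, a2⟩, a3⟩, a4, a5, a6, a7⟩ := hg
      by_cases h4 : g.1 ∈ P
      · exact Or.inl ⟨⟨h4, a3⟩, a4, a5, a6, a7⟩
      · right
        refine ⟨?_, a3⟩
        rw [hP, mem_filter, mem_Icc, not_and, not_and] at h4
        by_cases h5 : g.1 ≤ m'
        · left
          refine ⟨a1, Nat.le_floor ?_⟩
          rw [hS]
          exact not_lt.1 (h4 ⟨a1, h5⟩ a4)
        · right
          omega
    have h4 : ((Icc 1 ⌊S⌋₊ ∪ Ioc m' (m' + q + 1)) ×ˢ s).card ≤ (⌊S⌋₊ + (q + 1)) * s.card := by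
      rw [card_product]
      apply Nat.mul_le_mul_right
      refine (card_union_le _ _).trans ?_
      rw [Nat.card_Icc, Nat.card_Ioc]
      omega
    have h5 : (knj q s y (Icc 1 m) m : ℝ) ≤ knj q s y P m + ((⌊S⌋₊ : ℝ) + (q + 1)) * s.card := by
      exact_mod_cast h3.trans (Nat.add_le_add_left h4 _)
    have h6 : ((⌊S⌋₊ : ℝ) + (q + 1)) * s.card ≤ (S + (q + 2)) * s.card := by
      apply mul_le_mul_of_nonneg_right _ (Nat.cast_nonneg _)
      have := Nat.floor_le hS0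
      linarith
    linarith
  have hs0 : (0 : ℝ) ≤ s.card := Nat.cast_nonneg _
  obtain ⟨M, hM⟩ : ∃ M : ℝ, M = s.card * (m / 2 / L ^ 2) := ⟨_, rfl⟩
  rw [← hM] at hc ⊢
  have hM2 : M = s.card * Q * L / 2 := by
    rw [hM, hQm]
    have hL00 : L ≠ 0 := hL0.ne'
    clear * - hL00
    field_simp
  have hM0 : 0 ≤ M := by
    rw [hM2]
    exact div_nonneg (mul_nonneg (mul_nonneg hs0 hQ0) hL0.le) (by norm_num)
  have herr : (S + (q + 2)) * s.card ≤ ε' * M := by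
    have h3 : S + ((q : ℝ) + 2) ≤ ε' * Q := by nlinarith
    calc (S + ((q : ℝ) + 2)) * s.card ≤ (ε' * Q) * s.card := mul_le_mul_of_nonneg_right h3 hs0
      _ = ε' * (s.card * Q * 2 / 2) := by ring
      _ ≤ ε' * (s.card * Q * L / 2) := by
          apply mul_le_mul_of_nonneg_left _ hε0.le
          apply div_le_div_of_nonneg_right _ (by norm_num)
          exact mul_le_mul_of_nonneg_left (by linarith) (mul_nonneg hs0 hQ0)
      _ = ε' * M := by rw [hM2]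
  have h3 := abs_le.1 hc
  rw [abs_le]
  constructor <;> nlinarith [h3.1, h3.2, mul_le_mul_of_nonneg_right hε2 hM0]

end Pool.Agent.Run7.h931.MK
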